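import Pool.Agent.Lib.MP_db815c_an.Loc

/-!
The counterexample: a bounded Toeplitz product outside the localisation algebra.
-/

set_option autoImplicit false

open scoped ENNReal
open InnerProductSpace Finset

noncomputable section

namespace Pool.Agent.Lib.MP_db815c_an

/-- Starting point of the `k`-th block when the block lengths are `4 ^ x i`. -/
def pos (x : ℕ → ℕ) (k : ℕ) : ℕ := ∑ i ∈ range k, 4 ^ x i

lemma pos_zero (x : ℕ → ℕ) : pos x 0 = 0 := by simp [pos]

lemma pos_succ (x : ℕ → ℕ) (k : ℕ) : pos x (k + 1) = pos x k + 4 ^ x k := by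
  simp [pos, sum_range_succ]

lemma pos_succ_pos (x : ℕ → ℕ) (k : ℕ) : 0 < pos x (k + 1) := by
  rw [pos_succ]; positivity

lemma pos_mono (x : ℕ → ℕ) : Monotone (pos x) :=
  monotone_nat_of_le_succ fun k => by rw [pos_succ]; exact Nat.le_add_right _ _

/-- The `k`-th block. -/
def bl (x : ℕ → ℕ) (k : ℕ) : H := blk (pos x k) (4 ^ x k)

lemma sqrt_four_pow (n : ℕ) : √((4 ^ n : ℕ) : ℝ) = 2 ^ n := by
  have : ((4 ^ n : ℕ) : ℝ) = (2 ^ n) ^ 2 := by
    push_cast
    rw [← pow_mul, mul_comm, pow_mul]; norm_num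
  rw [this, Real.sqrt_sq (by positivity)]

lemma four_pow_eq (n : ℕ) : ((4 ^ n : ℕ) : ℝ) = 2 ^ n * 2 ^ n := by
  push_cast
  rw [← mul_pow]; norm_num

lemma norm_bl (x : ℕ → ℕ) (k : ℕ) : ‖bl x k‖ = 2 ^ x k := by
  rw [bl, norm_blk, sqrt_four_pow]

/-- The normalised `k`-th block. -/
def un (x : ℕ → ℕ) (k : ℕ) : H := (((2 ^ x k : ℝ)⁻¹ : ℝ) : ℂ) • bl x k

lemma norm_un (x : ℕ → ℕ) (k : ℕ) : ‖un x k‖ = 1 := by
  rw [un, norm_smul, norm_bl, Complex.norm_real, norm_inv, norm_pow, Real.norm_two]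
  field_simp

lemma orthonormal_un (x : ℕ → ℕ) : Orthonormal ℂ (un x) := by
  refine ⟨norm_un x, ?_⟩
  have key : ∀ i j, i < j → inner ℂ (un x i) (un x j) = 0 := by
    intro i j hij
    rw [un, un, inner_smul_left, inner_smul_right, bl, bl, inner_blk_of_le]
    · simp
    · rw [← pos_succ]; exact pos_mono x hij
  intro i j hij
  rcases lt_or_gt_of_ne hij with h | h
  · exact key i j h
  · rw [← inner_conj_symm, key j i h, map_zero]

lemma term_eq (p n q m : ℕ) :
    S ^ p * D n * (L ^ q - L ^ (q + m))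
      = S ^ p * (S ^ n - 1) * L * star (D m) * L ^ q + rankOne ℂ (blk p n) (blk q m) := by
  have h1 : (1 - L) * star (D m) = 1 - L ^ m := by
    have := congrArg star (D_mul_one_sub m)
    rwa [star_mul, star_sub, star_sub, star_one, star_pow, star_S] at this
  have h2 : L ^ q - L ^ (q + m) = (1 - L) * star (D m) * L ^ q := by
    rw [h1, sub_mul, one_mul, ← pow_add, add_comm]
  have h3 : D n * (1 - L) = (S ^ n - 1) * L + D n * E := by
    have h4 : E = 1 - S * L := by rw [S_mul_L]; noncomm_ring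
    have h5 : S ^ n - 1 = -(D n * (1 - S)) := by rw [D_mul_one_sub]; noncomm_ring
    rw [h4, h5]; noncomm_ring
  have h6 : rankOne ℂ (blk p n) (blk q m) = S ^ p * (D n * E) * star (D m) * L ^ q := by
    have a1 : S ^ p * (D n * E) = rankOne ℂ (blk p n) (e 0) := by
      rw [← mul_assoc, E]
      refine (comp_rankOne _ _ _).trans ?_
      rw [mul_apply_eq_comp, D_e, S_pow_blk, zero_add]
    rw [a1, mul_assoc]
    refine ((rankOne_comp _ _ _).trans ?_).symm
    rw [← ContinuousLinearMap.star_eq_adjoint, star_mul, star_star, star_pow, star_L,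
      mul_apply_eq_comp, D_e, S_pow_blk, zero_add]
  rw [h2, h6]
  calc S ^ p * D n * ((1 - L) * star (D m) * L ^ q)
      = S ^ p * (D n * (1 - L)) * star (D m) * L ^ q := by simp only [mul_assoc]
    _ = _ := by rw [h3]; noncomm_ring

lemma norm_L_sub_le (q r : ℕ) : ‖L ^ q - L ^ r‖ ≤ 2 := by
  refine (norm_sub_le _ _).trans ?_
  linarith [norm_L_pow_le q, norm_L_pow_le r]

lemma norm_term_le_left (p n q m : ℕ) : ‖S ^ p * D n * (L ^ q - L ^ (q + m))‖ ≤ 2 * n := by
  calc ‖S ^ p * D n * (L ^ q - L ^ (q + m))‖ ≤ ‖S ^ p‖ * ‖D n‖ * ‖L ^ q - L ^ (q + m)‖ :=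
        (norm_mul_le _ _).trans (by gcongr; exact norm_mul_le _ _)
    _ ≤ 1 * n * 2 := by
        gcongr
        · exact norm_S_pow_le p
        · exact norm_D_le n
        · exact norm_L_sub_le _ _
    _ = 2 * n := by ring

lemma norm_term_sub_le (p n q m : ℕ) :
    ‖S ^ p * D n * (L ^ q - L ^ (q + m)) - rankOne ℂ (blk p n) (blk q m)‖ ≤ 2 * m := by
  rw [term_eq, add_sub_cancel_right]
  have h1 : ‖S ^ n - 1‖ ≤ 2 := by rw [norm_sub_rev]; exact norm_one_sub_S_pow_le n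
  have h2 : ‖star (D m)‖ ≤ m := by rw [norm_star_op]; exact norm_D_le m
  calc ‖S ^ p * (S ^ n - 1) * L * star (D m) * L ^ q‖
      ≤ ‖S ^ p‖ * ‖S ^ n - 1‖ * ‖L‖ * ‖star (D m)‖ * ‖L ^ q‖ := by
        refine (norm_mul_le _ _).trans ?_
        gcongr
        refine (norm_mul_le _ _).trans ?_
        gcongr
        refine (norm_mul_le _ _).trans ?_
        gcongr
        exact norm_mul_le _ _
    _ ≤ 1 * 2 * 1 * m * 1 := by
        gcongr
        · exact norm_S_pow_le p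
        · exact norm_L_le
        · exact norm_L_pow_le q
    _ = 2 * m := by ring

/-- Exponents for the blocks of `g`. -/
def xx (k : ℕ) : ℕ := 2 * k ^ 3 + 2 * k

/-- Exponents for the blocks of `h / (1 - z)`. -/
def yy (j : ℕ) : ℕ := 2 * j ^ 3

/-- Heights of the blocks of `g`. -/
def al (k : ℕ) : ℝ := (2 ^ (k ^ 2) * 2 ^ xx k)⁻¹

/-- Heights of the blocks of `h / (1 - z)`. -/
def be (j : ℕ) : ℝ := 2 ^ (j ^ 2) * (2 ^ yy j)⁻¹

lemma al_pos (k : ℕ) : 0 < al k := by unfold al; positivity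

lemma be_pos (j : ℕ) : 0 < be j := by unfold be; positivity

lemma pow_ratio_le {a b c : ℕ} (h : a + c ≤ b) : (2 : ℝ) ^ a * (2 ^ b)⁻¹ ≤ (1 / 2) ^ c := by
  rw [one_div, inv_pow, mul_inv_le_iff₀ (by positivity), le_inv_mul_iff₀ (by positivity),
    ← pow_add, add_comm]
  exact pow_le_pow_right₀ one_le_two h

lemma al_anti : Antitone al := by
  refine antitone_nat_of_succ_le fun k => ?_
  unfold al
  rw [← pow_add, ← pow_add]
  gcongr
  · exact one_le_two
  · omega
  · unfold xx; gcongr <;> omega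

lemma be_anti : Antitone be := by
  refine antitone_nat_of_succ_le fun j => ?_
  unfold be
  rw [mul_inv_le_iff₀ (by positivity), mul_assoc, mul_comm, mul_assoc,
    le_inv_mul_iff₀ (by positivity), ← pow_add, ← pow_add]
  refine pow_le_pow_right₀ one_le_two ?_
  unfold yy
  nlinarith [Nat.zero_le j, Nat.zero_le (j ^ 2)]

lemma be_le (j : ℕ) : be j ≤ (1 / 2) ^ j := by
  refine pow_ratio_le ?_
  unfold yy
  rcases Nat.eq_zero_or_pos j with rfl | hj
  · simp
  · nlinarith [Nat.mul_le_mul hj hj, Nat.mul_le_mul (Nat.mul_le_mul hj hj) (le_refl j),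
      Nat.mul_le_mul hj (le_refl (j * j))]

lemma al_mul_le (k : ℕ) : al k * 2 ^ xx k ≤ (1 / 2) ^ k := by
  have : al k * 2 ^ xx k = 2 ^ 0 * (2 ^ (k ^ 2))⁻¹ := by unfold al; field_simp
  rw [this]
  exact pow_ratio_le (by nlinarith [Nat.zero_le k])

lemma ineq_gt {k j : ℕ} (h : k < j) :
    al k * be j * ((4 ^ xx k : ℕ) : ℝ) ≤ (1 / 2) ^ (j + k) := by
  have : al k * be j * ((4 ^ xx k : ℕ) : ℝ) = 2 ^ (j ^ 2 + xx k) * (2 ^ (k ^ 2 + yy j))⁻¹ := by
    rw [four_pow_eq, pow_add, pow_add]; unfold al be; field_simp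
  rw [this]
  refine pow_ratio_le ?_
  unfold xx yy
  obtain ⟨d, rfl⟩ := Nat.exists_eq_add_of_lt h
  nlinarith [Nat.zero_le k, Nat.zero_le d, Nat.zero_le (k * d), Nat.zero_le (k ^ 2 * d),
    Nat.zero_le (k * d ^ 2), Nat.zero_le (d ^ 3), Nat.zero_le (d ^ 2), Nat.zero_le (k ^ 2)]

lemma ineq_le {k j : ℕ} (h : j ≤ k) :
    al k * be j * ((4 ^ yy j : ℕ) : ℝ) ≤ (1 / 2) ^ (j + k) := by
  have : al k * be j * ((4 ^ yy j : ℕ) : ℝ) = 2 ^ (j ^ 2 + yy j) * (2 ^ (k ^ 2 + xx k))⁻¹ := by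
    rw [four_pow_eq, pow_add, pow_add]; unfold al be; field_simp
  rw [this]
  refine pow_ratio_le ?_
  unfold xx yy
  have h2 : j ^ 2 ≤ k ^ 2 := Nat.pow_le_pow_left h 2
  have h3 : j ^ 3 ≤ k ^ 3 := Nat.pow_le_pow_left h 3
  omega

lemma ineq_lt {k j : ℕ} (h : j < k) :
    al k * be j * (2 ^ xx k * 2 ^ yy j) ≤ (1 / 2) ^ (j + k) := by
  have : al k * be j * (2 ^ xx k * 2 ^ yy j) = 2 ^ (j ^ 2) * (2 ^ (k ^ 2))⁻¹ := by
    unfold al be; field_simp
  rw [this]
  refine pow_ratio_le ?_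
  obtain ⟨d, rfl⟩ := Nat.exists_eq_add_of_lt h
  nlinarith [Nat.zero_le j, Nat.zero_le d, Nat.zero_le (j * d), Nat.zero_le (d ^ 2)]

/-- The summands of the co-analytic Toeplitz operator with symbol the conjugate of `h`. -/
def hterm (j : ℕ) : H →L[ℂ] H := (be j : ℂ) • (L ^ pos yy j - L ^ pos yy (j + 1))

lemma summable_hterm : Summable hterm := by
  refine Summable.of_norm_bounded (g := fun j => (1 / 2 : ℝ) ^ j * 2)
    (summable_geometric_two.mul_right 2) fun j => ?_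
  rw [hterm, norm_smul, Complex.norm_real, Real.norm_of_nonneg (be_pos j).le]
  gcongr
  · exact be_le j
  · exact norm_L_sub_le _ _

/-- The co-analytic Toeplitz operator with symbol the conjugate of `h`. -/
def Hs : H →L[ℂ] H := ∑' j, hterm j

lemma hasSum_Hs : HasSum hterm Hs := summable_hterm.hasSum

lemma commute_L_Hs : L * Hs = Hs * L := by
  refine (hasSum_Hs.mul_left L).unique ?_
  convert hasSum_Hs.mul_right L using 2 with j
  rw [hterm, mul_smul_comm, smul_mul_assoc, mul_sub, sub_mul, ← pow_succ, ← pow_succ, ← pow_succ',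
    ← pow_succ']

lemma isToep_Hs : IsToep Hs := by
  rw [IsToep, commute_L_Hs, mul_assoc, L_mul_S, mul_one]

/-- Multiplication by the `k`-th block of `g`. -/
def W (k : ℕ) : H →L[ℂ] H := (al k : ℂ) • (S ^ pos xx k * D (4 ^ xx k))

/-- The rank one main terms. -/
def R (k : ℕ) : H →L[ℂ] H := rankOne ℂ (un xx k) (un yy k)

lemma R_eq (k : ℕ) : R k = ((al k * be k : ℝ) : ℂ) • rankOne ℂ (bl xx k) (bl yy k) := by
  ext1 z
  have : al k * be k = (2 ^ xx k : ℝ)⁻¹ * (2 ^ yy k : ℝ)⁻¹ := by unfold al be; field_simp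
  simp only [R, un, rankOne_apply, smul_apply, inner_smul_left, smul_smul, this,
    Complex.conj_ofReal]
  congr 1
  push_cast
  ring

lemma W_mul_hterm (k j : ℕ) : W k * hterm j = ((al k * be j : ℝ) : ℂ) •
    (S ^ pos xx k * D (4 ^ xx k) * (L ^ pos yy j - L ^ (pos yy j + 4 ^ yy j))) := by
  rw [W, hterm, smul_mul_smul_comm, pos_succ]
  push_cast
  rfl

lemma norm_err_term (k j : ℕ) :
    ‖W k * hterm j - (if j = k then R k else 0)‖ ≤ 3 * (1 / 2) ^ k * (1 / 2) ^ j := by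
  have hpos : 0 ≤ al k * be j := (mul_pos (al_pos k) (be_pos j)).le
  have hq : (0 : ℝ) ≤ (1 / 2) ^ (j + k) := by positivity
  have hfin : (3 : ℝ) * (1 / 2) ^ k * (1 / 2) ^ j = 3 * (1 / 2) ^ (j + k) := by
    rw [pow_add]; ring
  rw [hfin, W_mul_hterm]
  rcases lt_trichotomy j k with h | rfl | h
  · rw [if_neg h.ne, sub_zero, norm_smul, Complex.norm_real, Real.norm_of_nonneg hpos]
    have h1 := norm_term_sub_le (pos xx k) (4 ^ xx k) (pos yy j) (4 ^ yy j)
    have h2 : ‖rankOne ℂ (blk (pos xx k) (4 ^ xx k)) (blk (pos yy j) (4 ^ yy j))‖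
        = 2 ^ xx k * 2 ^ yy j := by
      rw [norm_rankOne, norm_blk, norm_blk, sqrt_four_pow, sqrt_four_pow]
    have h3 := norm_le_norm_sub_add
      (S ^ pos xx k * D (4 ^ xx k) * (L ^ pos yy j - L ^ (pos yy j + 4 ^ yy j)))
      (rankOne ℂ (blk (pos xx k) (4 ^ xx k)) (blk (pos yy j) (4 ^ yy j)))
    have h4 := ineq_le h.le
    have h5 := ineq_lt h
    calc al k * be j * _ ≤ al k * be j * (2 * ((4 ^ yy j : ℕ) : ℝ) + 2 ^ xx k * 2 ^ yy j) := by
          gcongr; linarith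
      _ ≤ _ := by linarith
  · rw [if_pos rfl, R_eq, ← smul_sub, norm_smul, Complex.norm_real, Real.norm_of_nonneg hpos]
    have h1 := norm_term_sub_le (pos xx j) (4 ^ xx j) (pos yy j) (4 ^ yy j)
    have h4 := ineq_le (le_refl j)
    calc al j * be j * _ ≤ al j * be j * (2 * ((4 ^ yy j : ℕ) : ℝ)) := by
          gcongr; exact h1
      _ ≤ _ := by linarith
  · rw [if_neg h.ne', sub_zero, norm_smul, Complex.norm_real, Real.norm_of_nonneg hpos]
    have h1 := norm_term_le_left (pos xx k) (4 ^ xx k) (pos yy j) (4 ^ yy j)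
    have h4 := ineq_gt h
    calc al k * be j * _ ≤ al k * be j * (2 * ((4 ^ xx k : ℕ) : ℝ)) := by
          gcongr
      _ ≤ _ := by linarith

/-- The error terms. -/
def Err (k : ℕ) : H →L[ℂ] H := W k * Hs - R k

lemma norm_Err_le (k : ℕ) : ‖Err k‖ ≤ 3 * (1 / 2) ^ k * 2 := by
  have h1 : HasSum (fun j => W k * hterm j - (if j = k then R k else 0)) (Err k) :=
    (hasSum_Hs.mul_left (W k)).sub (hasSum_ite_eq k (R k))
  exact h1.norm_le_of_bounded (hasSum_geometric_two.mul_left _) (norm_err_term k)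

lemma summable_Err : Summable Err :=
  Summable.of_norm_bounded ((summable_geometric_two.mul_left 3).mul_right 2) norm_Err_le

lemma loc_Err (k : ℕ) : Loc (Err k) := by
  refine Loc.sub (Loc.mul ?_ isToep_Hs.loc) ?_
  · exact ((isToep_S_pow _).loc.mul (loc_D _)).smul _
  · rw [R_eq]
    exact (loc_rankOne_blk _ _ _).smul _

/-- The main part. -/
def Main : H →L[ℂ] H := iso (un xx) (orthonormal_un xx) * star (iso (un yy) (orthonormal_un yy))

lemma Main_un (k : ℕ) : Main (un yy k) = un xx k := by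
  rw [Main, mul_apply_eq_comp, ← iso_e (un yy) (orthonormal_un yy) k, ← mul_apply_eq_comp (star _),
    star_iso_mul, one_apply_eq_self, iso_e]

lemma norm_Main_le : ‖Main‖ ≤ 1 := by
  refine (norm_mul_le _ _).trans ?_
  rw [norm_star_op]
  exact mul_le_one₀ (norm_iso_le _ _) (norm_nonneg _) (norm_iso_le _ _)

lemma hasSum_Main (x y : H) : HasSum (fun k => inner ℂ y (R k x)) (inner ℂ y (Main x)) := by
  rw [Main, mul_apply_eq_comp, ← inner_star_left]
  refine (lp.hasSum_inner (𝕜 := ℂ) (star (iso (un xx) (orthonormal_un xx)) y)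
    (star (iso (un yy) (orthonormal_un yy)) x)).congr_fun fun k => ?_
  rw [star_iso_apply, star_iso_apply, R, inner_right_rankOne_apply, RCLike.inner_apply',
    inner_conj_symm]

lemma norm_one_sub_S_pow_blk (i p n : ℕ) : ‖(1 - S ^ i) (blk p n)‖ ≤ 2 * √i := by
  have h : (1 - S ^ i) * D n = (1 - S ^ n) * D i := by
    rw [← D_mul_one_sub i, ← D_mul_one_sub n, mul_assoc, one_sub_mul_D, mul_assoc, one_sub_mul_D,
      ← D_mul_one_sub i, ← D_mul_one_sub n, ← mul_assoc, ← mul_assoc]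
    congr 1
    exact Commute.sum_right _ _ _ fun j _ => (commute_S_pow_D j i).symm
  rw [← D_e, ← mul_apply_eq_comp, h, mul_apply_eq_comp, D_e]
  refine (ContinuousLinearMap.le_opNorm _ _).trans ?_
  rw [norm_blk]
  gcongr
  exact norm_one_sub_S_pow_le n

lemma norm_one_sub_F_blk {m : ℕ} (hm : 1 ≤ m) (p n : ℕ) : ‖(1 - F m) (blk p n)‖ ≤ 2 * √m := by
  have hm' : (0 : ℝ) < m := by exact_mod_cast hm
  rw [one_sub_F hm, smul_apply, _root_.sum_apply, norm_smul, norm_inv, Complex.norm_natCast,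
    inv_mul_le_iff₀ hm']
  refine (norm_sum_le _ _).trans ?_
  calc ∑ i ∈ range m, ‖(1 - S ^ i) (blk p n)‖ ≤ ∑ _i ∈ range m, 2 * √m := by
        refine sum_le_sum fun i hi => (norm_one_sub_S_pow_blk i p n).trans ?_
        have hi' : (i : ℝ) ≤ m := by exact_mod_cast (mem_range.1 hi).le
        gcongr
    _ = _ := by simp

lemma norm_F_un (x : ℕ → ℕ) (k a : ℕ) : ‖F (4 ^ a) (un x k)‖ ≤ 2 ^ x k * (2 ^ a)⁻¹ := by
  rw [un, map_smul, norm_smul, Complex.norm_real, norm_inv, norm_pow, Real.norm_two]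
  have := norm_F_blk_le (4 ^ a) (pos x k) (4 ^ x k)
  rw [sqrt_four_pow, four_pow_eq] at this
  rw [inv_mul_le_iff₀ (by positivity), ← mul_assoc]
  exact this

lemma norm_one_sub_F_un (x : ℕ → ℕ) (k a : ℕ) :
    ‖(1 - F (4 ^ a)) (un x k)‖ ≤ 2 ^ (a + 1) * (2 ^ x k)⁻¹ := by
  rw [un, map_smul, norm_smul, Complex.norm_real, norm_inv, norm_pow, Real.norm_two]
  have := norm_one_sub_F_blk (m := 4 ^ a) (Nat.one_le_pow _ _ (by norm_num)) (pos x k) (4 ^ x k)
  rw [sqrt_four_pow] at this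
  rw [mul_comm, pow_succ']
  exact mul_le_mul_of_nonneg_right this (by positivity)

lemma one_le_aux (k m n : ℕ) : (1 : ℝ) ≤ ‖F n * Main * (1 - F m)‖ + ‖(1 - F n) (un xx k)‖
    + ‖F m (un yy k)‖ := by
  have h5 : un xx k = (F n * Main * (1 - F m)) (un yy k) + (1 - F n) (un xx k)
      + F n (Main (F m (un yy k))) := by
    simp only [mul_apply_eq_comp, sub_apply, one_apply_eq_self, map_sub, Main_un]
    abel
  have h6 : ‖(F n * Main * (1 - F m)) (un yy k)‖ ≤ ‖F n * Main * (1 - F m)‖ := by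
    refine (ContinuousLinearMap.le_opNorm _ _).trans ?_
    rw [norm_un, mul_one]
  have h7 : ‖F n (Main (F m (un yy k)))‖ ≤ 1 * (1 * ‖F m (un yy k)‖) := by
    refine (ContinuousLinearMap.le_opNorm _ _).trans ?_
    refine mul_le_mul (norm_F_le n) ?_ (norm_nonneg _) zero_le_one
    refine (ContinuousLinearMap.le_opNorm _ _).trans ?_
    exact mul_le_mul_of_nonneg_right norm_Main_le (norm_nonneg _)
  have h8 := norm_add₃_le (a := (F n * Main * (1 - F m)) (un yy k)) (b := (1 - F n) (un xx k))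
    (c := F n (Main (F m (un yy k))))
  rw [← h5, norm_un] at h8
  linarith

lemma not_loc_Main : ¬ Loc Main := by
  intro h
  obtain ⟨l, hl⟩ := h (1 / 4) (by norm_num)
  obtain ⟨k, hk⟩ : ∃ k, k = l + 5 := ⟨_, rfl⟩
  obtain ⟨a, ha⟩ : ∃ a, a = yy k + 2 := ⟨_, rfl⟩
  have hlm : l * 4 ^ a ≤ 4 ^ (a + l) := by
    rw [pow_add, mul_comm]
    exact Nat.mul_le_mul_left _ (Nat.lt_pow_self (by norm_num)).le
  have h1 := hl (4 ^ a) (4 ^ (a + l)) (Nat.one_le_pow _ _ (by norm_num)) hlm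
  have h2 := (norm_F_un yy k a).trans (pow_ratio_le (c := 2) ha.ge)
  have h3 := (norm_one_sub_F_un xx k (a + l)).trans (pow_ratio_le (c := 2) (by
    rw [ha]; unfold xx yy; omega))
  have h4 := one_le_aux k (4 ^ a) (4 ^ (a + l))
  linarith

/-- The bounded Toeplitz product. -/
def A : H →L[ℂ] H := Main + ∑' k, Err k

lemma not_loc_A : ¬ Loc A := by
  intro h
  apply not_loc_Main
  have h2 := h.sub (loc_of_hasSum summable_Err.hasSum loc_Err)
  rwa [A, add_sub_cancel_right] at h2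

end Pool.Agent.Lib.MP_db815c_an
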