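import Pool.Agent.Lib.MP_db815c_an.Counter

/-!
The matrix of the counterexample and cyclicity of the two symbols.
-/

set_option autoImplicit false

open scoped ENNReal Topology
open InnerProductSpace Finset Filter

noncomputable section

namespace Pool.Agent.Lib.MP_db815c_an

lemma hasSum_inner_apply {f : ℕ → H →L[ℂ] H} {B : H →L[ℂ] H} (h : HasSum f B) (x y : H) :
    HasSum (fun i => inner ℂ y (f i x)) (inner ℂ y (B x)) :=
  ((innerSL ℂ y).comp (ContinuousLinearMap.apply ℂ H x)).hasSum h

lemma summable_g : Summable fun k => (al k : ℂ) • bl xx k := by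
  refine Summable.of_norm_bounded summable_geometric_two fun k => ?_
  rw [norm_smul, Complex.norm_real, Real.norm_of_nonneg (al_pos k).le, norm_bl]
  exact al_mul_le k

/-- The coefficient sequence of `g`. -/
def g : H := ∑' k, (al k : ℂ) • bl xx k

/-- The coefficient sequence of `h`. -/
def h : H := star Hs (e 0)

lemma hasSum_g : HasSum (fun k => (al k : ℂ) • bl xx k) g := summable_g.hasSum

lemma inner_h (x : H) : inner ℂ h x = inner ℂ (e 0) (Hs x) := inner_star_left _ _ _

lemma hasSum_A (x y : H) : HasSum (fun k => inner ℂ y ((W k * Hs) x)) (inner ℂ y (A x)) := by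
  have h1 := (hasSum_Main x y).add (hasSum_inner_apply summable_Err.hasSum x y)
  rw [A, add_apply, inner_add_right]
  refine h1.congr_fun fun k => ?_
  rw [Err, sub_apply, inner_sub_right]
  ring

lemma W_e_zero (k : ℕ) : W k (e 0) = (al k : ℂ) • bl xx k := by
  rw [W, smul_apply, mul_apply_eq_comp, D_e, S_pow_blk, zero_add, bl]

lemma commute_S_W (k : ℕ) : S * W k = W k * S := by
  rw [W, mul_smul_comm, smul_mul_assoc]
  congr 1
  exact ((Commute.refl S).pow_right _).mul_right (commute_S_D _)

lemma delta_W (k : ℕ) (x y : H) :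
    inner ℂ y ((W k * Hs) x) - inner ℂ (L y) ((W k * Hs) (L x))
      = inner ℂ y ((al k : ℂ) • bl xx k) * inner ℂ h x := by
  have h1 : W k * Hs - S * (W k * Hs) * L = W k * E * Hs := by
    have h2 : S * (W k * Hs) * L = W k * (S * L) * Hs := by
      calc S * (W k * Hs) * L = (S * W k) * (Hs * L) := by simp only [mul_assoc]
        _ = (W k * S) * (L * Hs) := by rw [commute_S_W, commute_L_Hs]
        _ = _ := by simp only [mul_assoc]
    rw [h2, S_mul_L]
    noncomm_ring
  rw [← inner_S_right, ← inner_sub_right]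
  have h3 : (W k * Hs) x - S ((W k * Hs) (L x)) = (W k * Hs - S * (W k * Hs) * L) x := rfl
  rw [h3, h1, mul_apply_eq_comp, mul_apply_eq_comp, E, rankOne_apply, map_smul, W_e_zero,
    inner_smul_right, inner_h, mul_comm]

lemma delta_A (x y : H) :
    inner ℂ y (A x) - inner ℂ (L y) (A (L x)) = inner ℂ y g * inner ℂ h x := by
  have h1 := (hasSum_A x y).sub (hasSum_A (L x) (L y))
  have h2 := ((innerSL ℂ y).hasSum hasSum_g).mul_right (inner ℂ h x)
  refine h1.unique (h2.congr_fun fun k => ?_)
  rw [delta_W]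
  rfl

lemma inner_e_right (x : H) (j : ℕ) : inner ℂ x (e j) = starRingEnd ℂ ((x : ℕ → ℂ) j) := by
  rw [← inner_conj_symm, inner_e_left]

lemma A_entry (j m : ℕ) : (A (e j) : ℕ → ℂ) m = ∑ n ∈ range (j + 1),
    (if j - n ≤ m then starRingEnd ℂ ((h : ℕ → ℂ) n) * (g : ℕ → ℂ) (m + n - j) else 0) := by
  induction j generalizing m with
  | zero =>
    have := delta_A (e 0) (e m)
    rw [L_e_zero, map_zero, inner_zero_right, sub_zero, inner_e_left, inner_e_left,
      inner_e_right] at this
    rw [this]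
    simp [mul_comm]
  | succ j ih =>
    rw [sum_range_succ]
    cases m with
    | zero =>
      have := delta_A (e (j + 1)) (e 0)
      rw [L_e_zero, inner_zero_left, sub_zero, inner_e_left, inner_e_left, inner_e_right] at this
      rw [this, sum_eq_zero]
      · simp [mul_comm]
      · intro n hn
        have := mem_range.1 hn
        rw [if_neg (by omega)]
    | succ m =>
      have := delta_A (e (j + 1)) (e (m + 1))
      rw [L_e_succ, L_e_succ, inner_e_left, inner_e_left, inner_e_left, inner_e_right,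
        sub_eq_iff_eq_add, ih] at this
      rw [this, add_comm (_ * _)]
      congr 1
      · refine sum_congr rfl fun n hn => ?_
        have := mem_range.1 hn
        have e1 : m + 1 + n - (j + 1) = m + n - j := by omega
        have e2 : (j + 1 - n ≤ m + 1) ↔ (j - n ≤ m) := by omega
        simp only [e1, e2]
      · simp [mul_comm]

/-- A maximum principle for renewal equations. -/
lemma vanish (γ : ℕ → ℝ) (hpos : ∀ j, 0 < γ j) (hanti : Antitone γ) (t : ℕ → ℕ) (t0 : t 0 = 0)
    (ht : ∀ j, 0 < t (j + 1)) (c : ℕ → ℂ) (hc : Tendsto c atTop (𝓝 0))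
    (hs : ∀ k, HasSum (fun j => (γ j : ℂ) * (c (k + t j) - c (k + t (j + 1)))) 0) : c = 0 := by
  have step : ∀ (μ : ℝ) (k : ℕ), (∀ i, k < i → ‖c i‖ ≤ μ) → ‖c k‖ ≤ μ := by
    intro μ k hμ
    have h1 : ∀ J : ℕ, ‖(γ 0 : ℂ) * c k
        - ∑ j ∈ range (J + 1), (γ j : ℂ) * (c (k + t j) - c (k + t (j + 1)))
        - (γ J : ℂ) * c (k + t (J + 1))‖ ≤ (γ 0 - γ J) * μ := by
      intro J
      induction J with
      | zero =>
        simp only [zero_add, range_one, sum_singleton, t0, add_zero, sub_self, zero_mul]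
        rw [norm_le_zero_iff]; ring
      | succ J ih =>
        rw [sum_range_succ]
        have e1 : (γ 0 : ℂ) * c k
            - (∑ j ∈ range (J + 1), (γ j : ℂ) * (c (k + t j) - c (k + t (j + 1)))
              + (γ (J + 1) : ℂ) * (c (k + t (J + 1)) - c (k + t (J + 1 + 1))))
            - (γ (J + 1) : ℂ) * c (k + t (J + 1 + 1))
            = ((γ 0 : ℂ) * c k
              - ∑ j ∈ range (J + 1), (γ j : ℂ) * (c (k + t j) - c (k + t (j + 1)))
              - (γ J : ℂ) * c (k + t (J + 1)))
              + ((γ J - γ (J + 1) : ℝ) : ℂ) * c (k + t (J + 1)) := by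
          push_cast; ring
        rw [e1]
        refine (norm_add_le _ _).trans ?_
        have e2 : 0 ≤ γ J - γ (J + 1) := sub_nonneg.2 (hanti (Nat.le_succ J))
        rw [norm_mul, Complex.norm_real, Real.norm_of_nonneg e2]
        have e3 := mul_le_mul_of_nonneg_left (hμ (k + t (J + 1)) (by have := ht J; omega)) e2
        linarith
    have h2 : ∀ J : ℕ, ‖(γ 0 : ℂ) * c k
        - ∑ j ∈ range (J + 1), (γ j : ℂ) * (c (k + t j) - c (k + t (j + 1)))‖ ≤ γ 0 * μ := by
      intro J
      refine (norm_le_norm_sub_add _ ((γ J : ℂ) * c (k + t (J + 1)))).trans ?_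
      rw [norm_mul, Complex.norm_real, Real.norm_of_nonneg (hpos J).le]
      have e3 := mul_le_mul_of_nonneg_left (hμ (k + t (J + 1)) (by have := ht J; omega))
        (hpos J).le
      linarith [h1 J]
    have h3 := ((((hs k).tendsto_sum_nat.comp (tendsto_add_atTop_nat 1)).const_sub
      ((γ 0 : ℂ) * c k)).norm)
    have h4 := le_of_tendsto' h3 h2
    rw [sub_zero, norm_mul, Complex.norm_real, Real.norm_of_nonneg (hpos 0).le] at h4
    exact le_of_mul_le_mul_left h4 (hpos 0)
  funext k
  rw [Pi.zero_apply, ← norm_le_zero_iff]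
  refine le_of_forall_pos_le_add fun ε hε => ?_
  rw [zero_add]
  obtain ⟨K, hK⟩ := Metric.tendsto_atTop.1 hc ε hε
  have h5 : ∀ d i, K ≤ i + d → ‖c i‖ ≤ ε := by
    intro d
    induction d with
    | zero =>
      intro i hi
      have := hK i hi
      rw [dist_zero_right] at this
      exact this.le
    | succ d ih =>
      intro i hi
      exact step ε i fun j hj => ih j (by omega)
  exact h5 K k (by omega)

lemma tendsto_coord (x : H) : Tendsto (x : ℕ → ℂ) atTop (𝓝 0) := by
  have h1 := (lp.hasSum_single (p := 2) (by simp) x).summable.tendsto_atTop_zero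
  rw [tendsto_zero_iff_norm_tendsto_zero] at h1 ⊢
  refine h1.congr fun i => ?_
  rw [lp.norm_single (by simp)]

lemma inner_L_pow_eq_tsum (x y : H) (k : ℕ) : inner ℂ ((L ^ k) x) y
    = ∑' n, (y : ℕ → ℂ) n * starRingEnd ℂ ((x : ℕ → ℂ) (n + k)) := by
  rw [lp.inner_eq_tsum]
  refine tsum_congr fun n => ?_
  rw [L_pow_apply, RCLike.inner_apply]

lemma cyclic_h (x : H) (hx : ∀ k, inner ℂ ((L ^ k) x) h = 0) : (x : ℕ → ℂ) = 0 := by
  refine vanish be be_pos be_anti (pos yy) (pos_zero _) (pos_succ_pos _) _ (tendsto_coord x)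
    fun k => ?_
  have h1 := hasSum_inner_apply hasSum_Hs ((L ^ k) x) (e 0)
  rw [← inner_h, ← inner_conj_symm, hx, map_zero] at h1
  refine h1.congr_fun fun j => ?_
  rw [hterm, smul_apply, inner_smul_right, sub_apply, inner_sub_right, inner_e_left, inner_e_left,
    L_pow_apply, L_pow_apply, L_pow_apply, L_pow_apply, zero_add, zero_add, add_comm k, add_comm k]

lemma one_sub_S_blk (p n : ℕ) : (1 - S) (blk p n) = e p - e (p + n) := by
  rw [← D_e, ← mul_apply_eq_comp, one_sub_mul_D, sub_apply, one_apply_eq_self, S_pow_e]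

lemma cyclic_g (x : H) (hx : ∀ k, inner ℂ ((L ^ k) x) g = 0) : (x : ℕ → ℂ) = 0 := by
  refine vanish al al_pos al_anti (pos xx) (pos_zero _) (pos_succ_pos _) _ (tendsto_coord x)
    fun k => ?_
  have h0 : inner ℂ ((1 - S) g) ((L ^ k) x) = 0 := by
    rw [← inner_conj_symm, sub_apply, one_apply_eq_self, inner_sub_right, inner_S_right,
      ← mul_apply_eq_comp, ← pow_succ', hx, hx, sub_zero, map_zero]
  have h1 := (innerSL ℂ ((L ^ k) x)).hasSum ((1 - S).hasSum hasSum_g)
  have h2 := Complex.conjCLE.hasSum'.2 h1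
  simp only [innerSL_apply_apply, Complex.conjCLE_apply, inner_conj_symm] at h2
  rw [h0] at h2
  refine h2.congr_fun fun j => ?_
  rw [map_smul, bl, one_sub_S_blk, ← pos_succ, inner_smul_left, Complex.conj_ofReal,
    inner_sub_left, inner_e_left, inner_e_left, L_pow_apply, L_pow_apply, add_comm k, add_comm k]

end Pool.Agent.Lib.MP_db815c_an
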