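import Pool.Agent.Lib.MP_db815c_an.Shift

/-!
A norm-closed algebra of operators that contains every bounded Toeplitz matrix.
-/

set_option autoImplicit false

open scoped ENNReal
open InnerProductSpace Finset

noncomputable section

namespace Pool.Agent.Lib.MP_db815c_an

/-- Cesaro means of the powers of the shift. -/
def F (n : ℕ) : H →L[ℂ] H := ((n : ℂ))⁻¹ • D n

lemma norm_F_le (n : ℕ) : ‖F n‖ ≤ 1 := by
  rw [F, norm_smul, norm_inv, Complex.norm_natCast]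
  rcases Nat.eq_zero_or_pos n with rfl | hn
  · simp
  · have hn' : (0 : ℝ) < n := by exact_mod_cast hn
    rw [inv_mul_le_iff₀ hn', mul_one]
    exact norm_D_le n

lemma norm_one_sub_F_le (n : ℕ) : ‖1 - F n‖ ≤ 2 := by
  refine (norm_sub_le _ _).trans ?_
  have h1 : ‖(1 : H →L[ℂ] H)‖ ≤ 1 := ContinuousLinearMap.norm_id_le
  linarith [norm_F_le n]

lemma norm_F_e (n j : ℕ) : ‖F n (e j)‖ = (√n)⁻¹ := by
  rw [F, smul_apply, D_e, norm_smul, norm_blk, norm_inv, Complex.norm_natCast]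
  rcases Nat.eq_zero_or_pos n with rfl | hn
  · simp
  · have hn' : (0 : ℝ) < n := by exact_mod_cast hn
    have h2 : (0 : ℝ) < √n := Real.sqrt_pos.2 hn'
    have h3 : √(n : ℝ) * √n = n := Real.mul_self_sqrt hn'.le
    field_simp
    nlinarith

lemma norm_F_blk_le (n p m : ℕ) : ‖F n (blk p m)‖ ≤ m * (√n)⁻¹ := by
  rw [blk, map_sum]
  refine (norm_sum_le _ _).trans ?_
  simp [norm_F_e]

lemma norm_F_mul_one_sub (n i : ℕ) : ‖F n * (1 - S ^ i)‖ ≤ 2 * i * (n : ℝ)⁻¹ := by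
  have h : F n * (1 - S ^ i) = ((n : ℂ))⁻¹ • ((1 - S ^ n) * D i) := by
    rw [F, smul_mul_assoc, ← one_sub_mul_D i, ← mul_assoc, D_mul_one_sub]
  rw [h, norm_smul, norm_inv, Complex.norm_natCast, mul_comm]
  gcongr
  refine (norm_mul_le _ _).trans ?_
  gcongr
  · exact norm_one_sub_S_pow_le n
  · exact norm_D_le i

lemma one_sub_F {m : ℕ} (hm : 1 ≤ m) :
    1 - F m = ((m : ℂ))⁻¹ • ∑ i ∈ range m, (1 - S ^ i) := by
  have hm' : (m : ℂ) ≠ 0 := by exact_mod_cast (by omega : m ≠ 0)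
  rw [sum_sub_distrib, smul_sub, F, D]
  congr 1
  rw [sum_const, card_range, ← Nat.cast_smul_eq_nsmul ℂ, smul_smul, inv_mul_cancel₀ hm', one_smul]

lemma proj_apply (i : ℕ) (x : H) :
    (1 - S ^ i * L ^ i) x = ∑ l ∈ range i, (x : ℕ → ℂ) l • e l := by
  induction i with
  | zero => simp
  | succ i ih =>
    have h : 1 - S ^ (i + 1) * L ^ (i + 1) = (1 - S ^ i * L ^ i) + S ^ i * E * L ^ i := by
      have : S ^ (i + 1) * L ^ (i + 1) = S ^ i * (S * L) * L ^ i := by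
        rw [pow_succ, pow_succ' L]; simp only [mul_assoc]
      rw [this, S_mul_L]
      noncomm_ring
    rw [h, add_apply, ih, sum_range_succ]
    congr 1
    rw [mul_apply_eq_comp, mul_apply_eq_comp, E, rankOne_apply, map_smul, S_pow_e, inner_e_left,
      L_pow_apply, zero_add]

lemma sum_norm_le_sqrt (i : ℕ) (x : H) :
    ∑ l ∈ range i, ‖(x : ℕ → ℂ) l‖ ≤ √i * ‖x‖ := by
  have h1 : ∑ l ∈ range i, ‖(x : ℕ → ℂ) l‖ ^ 2 ≤ ‖x‖ ^ 2 := by
    have := lp.sum_rpow_le_norm_rpow (p := 2) (by simp) x (range i)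
    simpa using this
  have h2 := sq_sum_le_card_mul_sum_sq (s := range i) (f := fun l => ‖(x : ℕ → ℂ) l‖)
  rw [card_range] at h2
  have h3 : (∑ l ∈ range i, ‖(x : ℕ → ℂ) l‖) ^ 2 ≤ (√i * ‖x‖) ^ 2 := by
    rw [mul_pow, Real.sq_sqrt (Nat.cast_nonneg i)]
    exact h2.trans (mul_le_mul_of_nonneg_left h1 (Nat.cast_nonneg i))
  exact abs_le_of_sq_le_sq h3 (by positivity) |>.trans' (le_abs_self _)

lemma norm_F_mul_proj (n i : ℕ) : ‖F n * (1 - S ^ i * L ^ i)‖ ≤ √i * (√n)⁻¹ := by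
  refine ContinuousLinearMap.opNorm_le_bound _ (by positivity) fun x => ?_
  rw [mul_apply_eq_comp, proj_apply, map_sum]
  refine (norm_sum_le _ _).trans ?_
  simp only [map_smul, norm_smul, norm_F_e]
  rw [← sum_mul]
  calc (∑ l ∈ range i, ‖(x : ℕ → ℂ) l‖) * (√n)⁻¹ ≤ (√i * ‖x‖) * (√n)⁻¹ := by
        gcongr; exact sum_norm_le_sqrt i x
    _ = _ := by ring

/-- Operators whose matrix is constant along diagonals. -/
def IsToep (T : H →L[ℂ] H) : Prop := L * T * S = T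

lemma IsToep.pow {T : H →L[ℂ] H} (h : IsToep T) (i : ℕ) : L ^ i * T * S ^ i = T := by
  induction i with
  | zero => simp
  | succ i ih =>
    calc L ^ (i + 1) * T * S ^ (i + 1) = L * (L ^ i * T * S ^ i) * S := by
          rw [pow_succ' L, pow_succ S]; simp only [mul_assoc]
      _ = T := by rw [ih]; exact h

lemma IsToep.star {T : H →L[ℂ] H} (h : IsToep T) : IsToep (star T) := by
  have := congrArg Star.star h
  rw [star_mul, star_mul, star_S, star_L, ← mul_assoc] at this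
  exact this

lemma IsToep.norm_aux {T : H →L[ℂ] H} (h : IsToep T) (n i : ℕ) :
    ‖F n * T * (1 - S ^ i)‖ ≤ ‖T‖ * (2 * i * (n : ℝ)⁻¹ + √i * (√n)⁻¹) := by
  have h1 : F n * T * (1 - S ^ i)
      = F n * (1 - S ^ i) * T - F n * (1 - S ^ i * L ^ i) * (T * S ^ i) := by
    have h2 : S ^ i * L ^ i * (T * S ^ i) = S ^ i * T := by
      calc S ^ i * L ^ i * (T * S ^ i) = S ^ i * (L ^ i * T * S ^ i) := by simp only [mul_assoc]
        _ = _ := by rw [h.pow]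
    have h3 : F n * (1 - S ^ i * L ^ i) * (T * S ^ i)
        = F n * (T * S ^ i) - F n * (S ^ i * T) := by
      rw [mul_assoc, sub_mul, one_mul, h2, mul_sub]
    rw [h3]
    noncomm_ring
  rw [h1]
  refine (norm_sub_le _ _).trans ?_
  have h4 : ‖T * S ^ i‖ ≤ ‖T‖ := by
    refine (norm_mul_le _ _).trans ?_
    exact mul_le_of_le_one_right (norm_nonneg _) (norm_S_pow_le i)
  have h5 := norm_F_mul_one_sub n i
  have h6 := norm_F_mul_proj n i
  calc ‖F n * (1 - S ^ i) * T‖ + ‖F n * (1 - S ^ i * L ^ i) * (T * S ^ i)‖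
      ≤ ‖F n * (1 - S ^ i)‖ * ‖T‖ + ‖F n * (1 - S ^ i * L ^ i)‖ * ‖T * S ^ i‖ :=
        add_le_add (norm_mul_le _ _) (norm_mul_le _ _)
    _ ≤ (2 * i * (n : ℝ)⁻¹) * ‖T‖ + (√i * (√n)⁻¹) * ‖T‖ := by gcongr
    _ = _ := by ring

lemma IsToep.norm_le {T : H →L[ℂ] H} (h : IsToep T) (n : ℕ) {m : ℕ} (hm : 1 ≤ m) :
    ‖F n * T * (1 - F m)‖ ≤ ‖T‖ * (2 * m * (n : ℝ)⁻¹ + √m * (√n)⁻¹) := by
  have hm' : (0 : ℝ) < m := by exact_mod_cast hm
  rw [one_sub_F hm, mul_smul_comm, mul_sum, norm_smul, norm_inv, Complex.norm_natCast,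
    inv_mul_le_iff₀ hm']
  refine (norm_sum_le _ _).trans ?_
  calc ∑ i ∈ range m, ‖F n * T * (1 - S ^ i)‖
      ≤ ∑ _i ∈ range m, ‖T‖ * (2 * m * (n : ℝ)⁻¹ + √m * (√n)⁻¹) := by
        refine sum_le_sum fun i hi => (h.norm_aux n i).trans ?_
        have hi' : (i : ℝ) ≤ m := by exact_mod_cast (mem_range.1 hi).le
        gcongr
    _ = _ := by simp

/-- The localisation property: the operator moves almost no mass from far scales to much
finer scales near the point one of the circle. -/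
def Loc (B : H →L[ℂ] H) : Prop :=
  ∀ ε : ℝ, 0 < ε → ∃ lam : ℕ, ∀ m n : ℕ, 1 ≤ m → lam * m ≤ n → ‖F n * B * (1 - F m)‖ ≤ ε

lemma exists_sq_large (C ε : ℝ) (hε : 0 < ε) : ∃ r : ℕ, 1 ≤ r ∧ C * (r : ℝ)⁻¹ ≤ ε := by
  obtain ⟨r, hr⟩ := exists_nat_ge (C / ε)
  refine ⟨r + 1, by omega, ?_⟩
  have h1 : (0 : ℝ) < ((r + 1 : ℕ) : ℝ) := by positivity
  rw [mul_inv_le_iff₀ h1]
  rw [div_le_iff₀ hε] at hr
  push_cast
  nlinarith

lemma sqrt_ratio_le {r m n : ℕ} (hr : 1 ≤ r) (hm : 1 ≤ m) (h : r ^ 2 * m ≤ n) :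
    √m * (√n)⁻¹ ≤ (r : ℝ)⁻¹ := by
  have hr' : (0 : ℝ) < r := by exact_mod_cast hr
  have hm' : (0 : ℝ) < m := by exact_mod_cast hm
  have h' : (r : ℝ) ^ 2 * m ≤ n := by exact_mod_cast h
  have hn' : (0 : ℝ) < n := lt_of_lt_of_le (by positivity) h'
  have h1 : (r : ℝ) * √m ≤ √n := by
    rw [← Real.sqrt_sq hr'.le, ← Real.sqrt_mul (by positivity)]
    exact Real.sqrt_le_sqrt h'
  have h2 : (0 : ℝ) < √n := Real.sqrt_pos.2 hn'
  rw [mul_inv_le_iff₀ h2, le_inv_mul_iff₀ hr']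
  exact h1

lemma IsToep.loc {T : H →L[ℂ] H} (h : IsToep T) : Loc T := by
  intro ε hε
  obtain ⟨r, hr, hC⟩ := exists_sq_large (3 * ‖T‖) ε hε
  refine ⟨r ^ 2, fun m n hm hn => (h.norm_le n hm).trans ?_⟩
  have h1 := sqrt_ratio_le hr hm hn
  have hr' : (0 : ℝ) < r := by exact_mod_cast hr
  have hr1 : (1 : ℝ) ≤ r := by exact_mod_cast hr
  have hm' : (0 : ℝ) < m := by exact_mod_cast hm
  have h' : (r : ℝ) ^ 2 * m ≤ n := by exact_mod_cast hn
  have hn' : (0 : ℝ) < n := lt_of_lt_of_le (by positivity) h'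
  have h2 : (m : ℝ) * (n : ℝ)⁻¹ ≤ (r : ℝ)⁻¹ := by
    rw [mul_inv_le_iff₀ hn', le_inv_mul_iff₀ hr']
    nlinarith [mul_pos hr' hm']
  calc ‖T‖ * (2 * m * (n : ℝ)⁻¹ + √m * (√n)⁻¹) ≤ ‖T‖ * (3 * (r : ℝ)⁻¹) := by
        gcongr; linarith
    _ = 3 * ‖T‖ * (r : ℝ)⁻¹ := by ring
    _ ≤ ε := hC

lemma Loc.add {B C : H →L[ℂ] H} (hB : Loc B) (hC : Loc C) : Loc (B + C) := by
  intro ε hε
  obtain ⟨l1, h1⟩ := hB (ε / 2) (by positivity)
  obtain ⟨l2, h2⟩ := hC (ε / 2) (by positivity)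
  refine ⟨l1 + l2, fun m n hm hn => ?_⟩
  rw [mul_add, add_mul]
  refine (norm_add_le _ _).trans ?_
  have := h1 m n hm (by nlinarith)
  have := h2 m n hm (by nlinarith)
  linarith

lemma Loc.neg {B : H →L[ℂ] H} (hB : Loc B) : Loc (-B) := by
  intro ε hε
  obtain ⟨l1, h1⟩ := hB ε hε
  refine ⟨l1, fun m n hm hn => ?_⟩
  rw [mul_neg, neg_mul, norm_neg]
  exact h1 m n hm hn

lemma Loc.sub {B C : H →L[ℂ] H} (hB : Loc B) (hC : Loc C) : Loc (B - C) := by
  rw [sub_eq_add_neg]; exact hB.add hC.neg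

lemma Loc.mul {B C : H →L[ℂ] H} (hB : Loc B) (hC : Loc C) : Loc (B * C) := by
  intro ε hε
  obtain ⟨l1, h1⟩ := hB (ε / (4 * (‖C‖ + 1))) (by positivity)
  obtain ⟨l2, h2⟩ := hC (ε / (2 * (‖B‖ + 1))) (by positivity)
  refine ⟨l1 * (l2 + 1), fun m n hm hn => ?_⟩
  have hk : 1 ≤ (l2 + 1) * m := Nat.mul_pos (by omega) hm
  have e1 := h1 ((l2 + 1) * m) n hk (by rwa [← mul_assoc])
  have e2 := h2 m ((l2 + 1) * m) hm (by nlinarith)
  set k := (l2 + 1) * m
  have h : F n * (B * C) * (1 - F m)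
      = (F n * B * (1 - F k)) * (C * (1 - F m)) + (F n * B) * (F k * C * (1 - F m)) := by
    noncomm_ring
  rw [h]
  have e3 : ‖C * (1 - F m)‖ ≤ 2 * (‖C‖ + 1) := by
    refine (norm_mul_le _ _).trans ?_
    have := norm_one_sub_F_le m
    nlinarith [norm_nonneg C, norm_nonneg (1 - F m)]
  have e4 : ‖F n * B‖ ≤ ‖B‖ + 1 := by
    refine (norm_mul_le _ _).trans ?_
    have := norm_F_le n
    nlinarith [norm_nonneg B, norm_nonneg (F n)]
  calc ‖(F n * B * (1 - F k)) * (C * (1 - F m)) + (F n * B) * (F k * C * (1 - F m))‖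
      ≤ ‖F n * B * (1 - F k)‖ * ‖C * (1 - F m)‖ + ‖F n * B‖ * ‖F k * C * (1 - F m)‖ :=
        (norm_add_le _ _).trans (add_le_add (norm_mul_le _ _) (norm_mul_le _ _))
    _ ≤ ε / (4 * (‖C‖ + 1)) * (2 * (‖C‖ + 1)) + (‖B‖ + 1) * (ε / (2 * (‖B‖ + 1))) := by
        gcongr
    _ = ε := by field_simp; ring

lemma isToep_algebraMap (c : ℂ) : IsToep (algebraMap ℂ (H →L[ℂ] H) c) := by
  rw [IsToep, Algebra.algebraMap_eq_smul_one, mul_smul_comm, smul_mul_assoc, mul_one, L_mul_S]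

lemma Loc.smul {B : H →L[ℂ] H} (hB : Loc B) (c : ℂ) : Loc (c • B) := by
  rw [Algebra.smul_def]
  exact (isToep_algebraMap c).loc.mul hB

lemma loc_zero : Loc 0 := by
  intro ε hε
  exact ⟨0, fun m n _ _ => by simpa using hε.le⟩

lemma loc_sum {ι : Type*} (s : Finset ι) (f : ι → H →L[ℂ] H) (h : ∀ i ∈ s, Loc (f i)) :
    Loc (∑ i ∈ s, f i) :=
  Finset.sum_induction f Loc (fun _ _ => Loc.add) loc_zero h

lemma isClosed_loc : IsClosed {B : H →L[ℂ] H | Loc B} := by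
  refine isClosed_of_closure_subset fun B hB => ?_
  intro ε hε
  obtain ⟨C, hC, hBC⟩ := Metric.mem_closure_iff.1 hB (ε / 4) (by positivity)
  obtain ⟨l, hl⟩ := hC (ε / 2) (by positivity)
  refine ⟨l, fun m n hm hn => ?_⟩
  have h : F n * B * (1 - F m) = F n * C * (1 - F m) + F n * (B - C) * (1 - F m) := by
    noncomm_ring
  rw [h]
  have e1 := hl m n hm hn
  rw [dist_eq_norm] at hBC
  have e2 : ‖F n * (B - C) * (1 - F m)‖ ≤ 1 * (ε / 4) * 2 := by
    refine (norm_mul_le _ _).trans ?_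
    gcongr
    · refine (norm_mul_le _ _).trans ?_
      gcongr
      exact norm_F_le n
    · exact norm_one_sub_F_le m
  have := norm_add_le (F n * C * (1 - F m)) (F n * (B - C) * (1 - F m))
  linarith

lemma loc_of_hasSum {f : ℕ → H →L[ℂ] H} {B : H →L[ℂ] H} (h : HasSum f B) (hf : ∀ i, Loc (f i)) :
    Loc B :=
  isClosed_loc.mem_of_tendsto h (Filter.Eventually.of_forall fun s => loc_sum s f fun i _ => hf i)

lemma loc_rankOne_blk (p N : ℕ) (y : H) : Loc (rankOne ℂ (blk p N) y) := by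
  intro ε hε
  obtain ⟨r, hr, hC⟩ := exists_sq_large (N * ‖y‖ * 2) ε hε
  refine ⟨r ^ 2, fun m n hm hn => ?_⟩
  have h1 := sqrt_ratio_le (m := 1) (n := n) hr le_rfl (by nlinarith)
  simp only [Nat.cast_one, Real.sqrt_one, one_mul] at h1
  have h2 : F n * rankOne ℂ (blk p N) y = rankOne ℂ (F n (blk p N)) y := comp_rankOne _ _ _
  rw [h2]
  refine (norm_mul_le _ _).trans ?_
  rw [norm_rankOne]
  calc ‖F n (blk p N)‖ * ‖y‖ * ‖1 - F m‖ ≤ (N * (r : ℝ)⁻¹) * ‖y‖ * 2 := by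
        gcongr
        · refine (norm_F_blk_le n p N).trans ?_
          gcongr
        · exact norm_one_sub_F_le m
    _ = N * ‖y‖ * 2 * (r : ℝ)⁻¹ := by ring
    _ ≤ ε := hC

lemma isToep_S_pow (i : ℕ) : IsToep (S ^ i) := by
  rw [IsToep, mul_assoc, ← pow_succ, pow_succ', ← mul_assoc, L_mul_S, one_mul]

lemma isToep_L_pow (i : ℕ) : IsToep (L ^ i) := by
  have := (isToep_S_pow i).star
  rwa [star_pow, star_S] at this

lemma loc_D (n : ℕ) : Loc (D n) := loc_sum _ _ fun i _ => (isToep_S_pow i).loc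

/-- Every element of the norm-closed star algebra generated by operators with Toeplitz matrices has
the localisation property. -/
lemma loc_of_mem_closure_adjoin {s : Set (H →L[ℂ] H)} (hs : ∀ T ∈ s, IsToep T) {A : H →L[ℂ] H}
    (hA : A ∈ (StarAlgebra.adjoin ℂ s).topologicalClosure) : Loc A := by
  have h : ∀ B ∈ StarAlgebra.adjoin ℂ s, Loc B ∧ Loc (star B) := by
    intro B hB
    induction hB using StarAlgebra.adjoin_induction with
    | mem x hx => exact ⟨(hs x hx).loc, (hs x hx).star.loc⟩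
    | algebraMap r => exact ⟨(isToep_algebraMap r).loc, (isToep_algebraMap r).star.loc⟩
    | add x y _ _ hx hy => exact ⟨hx.1.add hy.1, by rw [star_add]; exact hx.2.add hy.2⟩
    | mul x y _ _ hx hy => exact ⟨hx.1.mul hy.1, by rw [star_mul]; exact hy.2.mul hx.2⟩
    | star x _ hx => exact ⟨hx.2, by rw [star_star]; exact hx.1⟩
  have h2 : closure (StarAlgebra.adjoin ℂ s : Set (H →L[ℂ] H)) ⊆ {B | Loc B} :=
    closure_minimal (fun B hB => (h B hB).1) isClosed_loc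
  exact h2 hA

end Pool.Agent.Lib.MP_db815c_an
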