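import Pool.Agent.Lib.MP_db815c_an.Smooth

/-!
A two-parameter family of bounded Toeplitz products outside the localisation algebra.
-/

set_option autoImplicit false

open scoped ENNReal Topology
open InnerProductSpace Finset Filter

noncomputable section

namespace Pool.Agent.Lib.MP_db815c_an.Par

/-- The two parameters of the family. -/
class Prm : Type where
  p : ℕ
  d : ℕ

variable [Prm]

/-- Exponents for the blocks of `h / (1 - z)`. -/
def yy (j : ℕ) : ℕ := 2 * Prm.p * j ^ 3 + 2 * Prm.d * j ^ 3 + 2 * j ^ 3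

/-- Exponents for the blocks of `g`. -/
def xx (k : ℕ) : ℕ := yy k + 2 * k

/-- Exponents of the heights. -/
def bb (j : ℕ) : ℕ := j ^ 2 + 2 * Prm.p * j ^ 3

/-- Heights of the blocks of `g`. -/
def al (k : ℕ) : ℝ := (2 ^ bb k * 2 ^ xx k)⁻¹

/-- Heights of the blocks of `h / (1 - z)`. -/
def be (j : ℕ) : ℝ := 2 ^ bb j * (2 ^ yy j)⁻¹

lemma al_pos (k : ℕ) : 0 < al k := by unfold al; positivity

lemma be_pos (j : ℕ) : 0 < be j := by unfold be; positivity

lemma yy_mono {j k : ℕ} (h : j ≤ k) : yy j ≤ yy k := by unfold yy; gcongr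

lemma xx_mono {j k : ℕ} (h : j ≤ k) : xx j ≤ xx k := by
  have := yy_mono h
  unfold xx
  omega

lemma bb_mono {j k : ℕ} (h : j ≤ k) : bb j ≤ bb k := by unfold bb; gcongr

lemma al_anti : Antitone al := by
  refine antitone_nat_of_succ_le fun k => ?_
  unfold al
  rw [← pow_add, ← pow_add]
  have h1 := bb_mono (Nat.le_succ k)
  have h2 := xx_mono (Nat.le_succ k)
  exact inv_anti₀ (by positivity) (pow_le_pow_right₀ one_le_two (Nat.add_le_add h1 h2))

lemma be_anti : Antitone be := by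
  refine antitone_nat_of_succ_le fun j => ?_
  unfold be
  rw [mul_inv_le_iff₀ (by positivity), mul_assoc, mul_comm, mul_assoc,
    le_inv_mul_iff₀ (by positivity), ← pow_add, ← pow_add]
  refine pow_le_pow_right₀ one_le_two ?_
  unfold yy bb
  have h1 : 2 * Prm.d * j ^ 3 ≤ 2 * Prm.d * (j + 1) ^ 3 := by gcongr; omega
  have h2 : 2 * j ^ 3 + (j + 1) ^ 2 ≤ j ^ 2 + 2 * (j + 1) ^ 3 := by
    nlinarith [Nat.zero_le j, Nat.zero_le (j ^ 2)]
  omega

lemma be_le (j : ℕ) : be j ≤ (1 / 2) ^ j := by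
  refine pow_ratio_le ?_
  unfold yy bb
  have h2 : j ^ 2 + j ≤ 2 * j ^ 3 := by
    rcases Nat.eq_zero_or_pos j with rfl | hj
    · simp
    · nlinarith [Nat.mul_le_mul hj hj, Nat.mul_le_mul (Nat.mul_le_mul hj hj) (le_refl j),
        Nat.mul_le_mul hj (le_refl (j * j))]
  omega

lemma al_mul_le (k : ℕ) : al k * 2 ^ xx k ≤ (1 / 2) ^ k := by
  have : al k * 2 ^ xx k = 2 ^ 0 * (2 ^ bb k)⁻¹ := by unfold al; field_simp
  rw [this]
  refine pow_ratio_le ?_
  have : k ≤ k ^ 2 := by nlinarith [Nat.zero_le k]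
  unfold bb
  omega

lemma ineq_gt {k j : ℕ} (h : k < j) :
    al k * be j * ((4 ^ xx k : ℕ) : ℝ) ≤ (1 / 2) ^ (j + k) := by
  have : al k * be j * ((4 ^ xx k : ℕ) : ℝ) = 2 ^ (bb j + xx k) * (2 ^ (bb k + yy j))⁻¹ := by
    rw [four_pow_eq, pow_add, pow_add]; unfold al be; field_simp
  rw [this]
  refine pow_ratio_le ?_
  unfold xx yy bb
  have h1 : 2 * Prm.d * k ^ 3 ≤ 2 * Prm.d * j ^ 3 := by gcongr
  have h2 : j ^ 2 + (2 * k ^ 3 + 2 * k) + (j + k) ≤ k ^ 2 + 2 * j ^ 3 := by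
    obtain ⟨d, rfl⟩ := Nat.exists_eq_add_of_lt h
    nlinarith [Nat.zero_le k, Nat.zero_le d, Nat.zero_le (k * d), Nat.zero_le (k ^ 2 * d),
      Nat.zero_le (k * d ^ 2), Nat.zero_le (d ^ 3), Nat.zero_le (d ^ 2), Nat.zero_le (k ^ 2)]
  omega

lemma ineq_le {k j : ℕ} (h : j ≤ k) :
    al k * be j * ((4 ^ yy j : ℕ) : ℝ) ≤ (1 / 2) ^ (j + k) := by
  have : al k * be j * ((4 ^ yy j : ℕ) : ℝ) = 2 ^ (bb j + yy j) * (2 ^ (bb k + xx k))⁻¹ := by
    rw [four_pow_eq, pow_add, pow_add]; unfold al be; field_simp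
  rw [this]
  refine pow_ratio_le ?_
  have h2 := bb_mono h
  have h3 := yy_mono h
  unfold xx
  omega

lemma ineq_lt {k j : ℕ} (h : j < k) :
    al k * be j * (2 ^ xx k * 2 ^ yy j) ≤ (1 / 2) ^ (j + k) := by
  have : al k * be j * (2 ^ xx k * 2 ^ yy j) = 2 ^ bb j * (2 ^ bb k)⁻¹ := by
    unfold al be; field_simp
  rw [this]
  refine pow_ratio_le ?_
  unfold bb
  have h1 : 2 * Prm.p * j ^ 3 ≤ 2 * Prm.p * k ^ 3 := by gcongr
  have h2 : j ^ 2 + (j + k) ≤ k ^ 2 := by
    obtain ⟨d, rfl⟩ := Nat.exists_eq_add_of_lt h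
    nlinarith [Nat.zero_le j, Nat.zero_le d, Nat.zero_le (j * d), Nat.zero_le (d ^ 2)]
  omega

/-- The summands of the co-analytic Toeplitz operator with symbol the conjugate of `h`. -/
def hterm (j : ℕ) : H →L[ℂ] H := (be j : ℂ) • (L ^ pos yy j - L ^ pos yy (j + 1))

lemma summable_hterm : Summable hterm := by
  refine Summable.of_norm_bounded (g := fun j => (1 / 2 : ℝ) ^ j * 2)
    (summable_geometric_two.mul_right 2) fun j => ?_
  rw [hterm, norm_smul, Complex.norm_real, Real.norm_of_nonneg (be_pos j).le]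
  gcongr
  · exact be_le j
  · exact norm_L_sub_le _ _

/-- The co-analytic Toeplitz operator with symbol the conjugate of `h`. -/
def Hs : H →L[ℂ] H := ∑' j, hterm j

lemma hasSum_Hs : HasSum hterm Hs := summable_hterm.hasSum

lemma commute_L_Hs : L * Hs = Hs * L := by
  refine (hasSum_Hs.mul_left L).unique ?_
  convert hasSum_Hs.mul_right L using 2 with j
  rw [hterm, mul_smul_comm, smul_mul_assoc, mul_sub, sub_mul, ← pow_succ, ← pow_succ, ← pow_succ',
    ← pow_succ']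

lemma isToep_Hs : IsToep Hs := by
  rw [IsToep, commute_L_Hs, mul_assoc, L_mul_S, mul_one]

/-- Multiplication by the `k`-th block of `g`. -/
def W (k : ℕ) : H →L[ℂ] H := (al k : ℂ) • (S ^ pos xx k * D (4 ^ xx k))

/-- The rank one main terms. -/
def R (k : ℕ) : H →L[ℂ] H := rankOne ℂ (un xx k) (un yy k)

lemma R_eq (k : ℕ) : R k = ((al k * be k : ℝ) : ℂ) • rankOne ℂ (bl xx k) (bl yy k) := by
  ext1 z
  have : al k * be k = (2 ^ xx k : ℝ)⁻¹ * (2 ^ yy k : ℝ)⁻¹ := by unfold al be; field_simp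
  simp only [R, un, rankOne_apply, smul_apply, inner_smul_left, smul_smul, this,
    Complex.conj_ofReal]
  congr 1
  push_cast
  ring

lemma W_mul_hterm (k j : ℕ) : W k * hterm j = ((al k * be j : ℝ) : ℂ) •
    (S ^ pos xx k * D (4 ^ xx k) * (L ^ pos yy j - L ^ (pos yy j + 4 ^ yy j))) := by
  rw [W, hterm, smul_mul_smul_comm, pos_succ]
  push_cast
  rfl

lemma norm_err_term (k j : ℕ) :
    ‖W k * hterm j - (if j = k then R k else 0)‖ ≤ 3 * (1 / 2) ^ k * (1 / 2) ^ j := by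
  have hpos : 0 ≤ al k * be j := (mul_pos (al_pos k) (be_pos j)).le
  have hq : (0 : ℝ) ≤ (1 / 2) ^ (j + k) := by positivity
  have hfin : (3 : ℝ) * (1 / 2) ^ k * (1 / 2) ^ j = 3 * (1 / 2) ^ (j + k) := by
    rw [pow_add]; ring
  rw [hfin, W_mul_hterm]
  rcases lt_trichotomy j k with h | rfl | h
  · rw [if_neg h.ne, sub_zero, norm_smul, Complex.norm_real, Real.norm_of_nonneg hpos]
    have h1 := norm_term_sub_le (pos xx k) (4 ^ xx k) (pos yy j) (4 ^ yy j)
    have h2 : ‖rankOne ℂ (blk (pos xx k) (4 ^ xx k)) (blk (pos yy j) (4 ^ yy j))‖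
        = 2 ^ xx k * 2 ^ yy j := by
      rw [norm_rankOne, norm_blk, norm_blk, sqrt_four_pow, sqrt_four_pow]
    have h3 := norm_le_norm_sub_add
      (S ^ pos xx k * D (4 ^ xx k) * (L ^ pos yy j - L ^ (pos yy j + 4 ^ yy j)))
      (rankOne ℂ (blk (pos xx k) (4 ^ xx k)) (blk (pos yy j) (4 ^ yy j)))
    have h4 := ineq_le h.le
    have h5 := ineq_lt h
    calc al k * be j * _ ≤ al k * be j * (2 * ((4 ^ yy j : ℕ) : ℝ) + 2 ^ xx k * 2 ^ yy j) := by
          gcongr; linarith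
      _ ≤ _ := by linarith
  · rw [if_pos rfl, R_eq, ← smul_sub, norm_smul, Complex.norm_real, Real.norm_of_nonneg hpos]
    have h1 := norm_term_sub_le (pos xx j) (4 ^ xx j) (pos yy j) (4 ^ yy j)
    have h4 := ineq_le (le_refl j)
    calc al j * be j * _ ≤ al j * be j * (2 * ((4 ^ yy j : ℕ) : ℝ)) := by
          gcongr; exact h1
      _ ≤ _ := by linarith
  · rw [if_neg h.ne', sub_zero, norm_smul, Complex.norm_real, Real.norm_of_nonneg hpos]
    have h1 := norm_term_le_left (pos xx k) (4 ^ xx k) (pos yy j) (4 ^ yy j)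
    have h4 := ineq_gt h
    calc al k * be j * _ ≤ al k * be j * (2 * ((4 ^ xx k : ℕ) : ℝ)) := by
          gcongr
      _ ≤ _ := by linarith

/-- The error terms. -/
def Err (k : ℕ) : H →L[ℂ] H := W k * Hs - R k

lemma norm_Err_le (k : ℕ) : ‖Err k‖ ≤ 3 * (1 / 2) ^ k * 2 := by
  have h1 : HasSum (fun j => W k * hterm j - (if j = k then R k else 0)) (Err k) :=
    (hasSum_Hs.mul_left (W k)).sub (hasSum_ite_eq k (R k))
  exact h1.norm_le_of_bounded (hasSum_geometric_two.mul_left _) (norm_err_term k)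

lemma summable_Err : Summable Err :=
  Summable.of_norm_bounded ((summable_geometric_two.mul_left 3).mul_right 2) norm_Err_le

lemma loc_Err (k : ℕ) : Loc (Err k) := by
  refine Loc.sub (Loc.mul ?_ isToep_Hs.loc) ?_
  · exact ((isToep_S_pow _).loc.mul (loc_D _)).smul _
  · rw [R_eq]
    exact (loc_rankOne_blk _ _ _).smul _

/-- The main part. -/
def Main : H →L[ℂ] H := iso (un xx) (orthonormal_un xx) * star (iso (un yy) (orthonormal_un yy))

lemma Main_un (k : ℕ) : Main (un yy k) = un xx k := by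
  rw [Main, mul_apply_eq_comp, ← iso_e (un yy) (orthonormal_un yy) k, ← mul_apply_eq_comp (star _),
    star_iso_mul, one_apply_eq_self, iso_e]

lemma norm_Main_le : ‖Main‖ ≤ 1 := by
  refine (norm_mul_le _ _).trans ?_
  rw [norm_star_op]
  exact mul_le_one₀ (norm_iso_le _ _) (norm_nonneg _) (norm_iso_le _ _)

lemma hasSum_Main (x y : H) : HasSum (fun k => inner ℂ y (R k x)) (inner ℂ y (Main x)) := by
  rw [Main, mul_apply_eq_comp, ← inner_star_left]
  refine (lp.hasSum_inner (𝕜 := ℂ) (star (iso (un xx) (orthonormal_un xx)) y)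
    (star (iso (un yy) (orthonormal_un yy)) x)).congr_fun fun k => ?_
  rw [star_iso_apply, star_iso_apply, R, inner_right_rankOne_apply, RCLike.inner_apply',
    inner_conj_symm]

lemma one_le_aux (k m n : ℕ) : (1 : ℝ) ≤ ‖F n * Main * (1 - F m)‖ + ‖(1 - F n) (un xx k)‖
    + ‖F m (un yy k)‖ := by
  have h5 : un xx k = (F n * Main * (1 - F m)) (un yy k) + (1 - F n) (un xx k)
      + F n (Main (F m (un yy k))) := by
    simp only [mul_apply_eq_comp, sub_apply, one_apply_eq_self, map_sub, Main_un]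
    abel
  have h6 : ‖(F n * Main * (1 - F m)) (un yy k)‖ ≤ ‖F n * Main * (1 - F m)‖ := by
    refine (ContinuousLinearMap.le_opNorm _ _).trans ?_
    rw [norm_un, mul_one]
  have h7 : ‖F n (Main (F m (un yy k)))‖ ≤ 1 * (1 * ‖F m (un yy k)‖) := by
    refine (ContinuousLinearMap.le_opNorm _ _).trans ?_
    refine mul_le_mul (norm_F_le n) ?_ (norm_nonneg _) zero_le_one
    refine (ContinuousLinearMap.le_opNorm _ _).trans ?_
    exact mul_le_mul_of_nonneg_right norm_Main_le (norm_nonneg _)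
  have h8 := norm_add₃_le (a := (F n * Main * (1 - F m)) (un yy k)) (b := (1 - F n) (un xx k))
    (c := F n (Main (F m (un yy k))))
  rw [← h5, norm_un] at h8
  linarith

lemma not_loc_Main : ¬ Loc Main := by
  intro h
  obtain ⟨l, hl⟩ := h (1 / 4) (by norm_num)
  obtain ⟨k, hk⟩ : ∃ k, k = l + 5 := ⟨_, rfl⟩
  obtain ⟨a, ha⟩ : ∃ a, a = yy k + 2 := ⟨_, rfl⟩
  have hlm : l * 4 ^ a ≤ 4 ^ (a + l) := by
    rw [pow_add, mul_comm]
    exact Nat.mul_le_mul_left _ (Nat.lt_pow_self (by norm_num)).le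
  have h1 := hl (4 ^ a) (4 ^ (a + l)) (Nat.one_le_pow _ _ (by norm_num)) hlm
  have h2 := (norm_F_un yy k a).trans (pow_ratio_le (c := 2) ha.ge)
  have h3 := (norm_one_sub_F_un xx k (a + l)).trans (pow_ratio_le (c := 2) (by
    rw [ha]; unfold xx; omega))
  have h4 := one_le_aux k (4 ^ a) (4 ^ (a + l))
  linarith

/-- The bounded Toeplitz product. -/
def A : H →L[ℂ] H := Main + ∑' k, Err k

lemma not_loc_A : ¬ Loc A := by
  intro h
  apply not_loc_Main
  have h2 := h.sub (loc_of_hasSum summable_Err.hasSum loc_Err)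
  rwa [A, add_sub_cancel_right] at h2

lemma summable_g : Summable fun k => (al k : ℂ) • bl xx k := by
  refine Summable.of_norm_bounded summable_geometric_two fun k => ?_
  rw [norm_smul, Complex.norm_real, Real.norm_of_nonneg (al_pos k).le, norm_bl]
  exact al_mul_le k

/-- The coefficient sequence of `g`. -/
def g : H := ∑' k, (al k : ℂ) • bl xx k

/-- The coefficient sequence of `h`. -/
def h : H := star Hs (e 0)

lemma hasSum_g : HasSum (fun k => (al k : ℂ) • bl xx k) g := summable_g.hasSum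

lemma inner_h (x : H) : inner ℂ h x = inner ℂ (e 0) (Hs x) := inner_star_left _ _ _

lemma hasSum_A (x y : H) : HasSum (fun k => inner ℂ y ((W k * Hs) x)) (inner ℂ y (A x)) := by
  have h1 := (hasSum_Main x y).add (hasSum_inner_apply summable_Err.hasSum x y)
  rw [A, add_apply, inner_add_right]
  refine h1.congr_fun fun k => ?_
  rw [Err, sub_apply, inner_sub_right]
  ring

lemma W_e_zero (k : ℕ) : W k (e 0) = (al k : ℂ) • bl xx k := by
  rw [W, smul_apply, mul_apply_eq_comp, D_e, S_pow_blk, zero_add, bl]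

lemma commute_S_W (k : ℕ) : S * W k = W k * S := by
  rw [W, mul_smul_comm, smul_mul_assoc]
  congr 1
  exact ((Commute.refl S).pow_right _).mul_right (commute_S_D _)

lemma delta_W (k : ℕ) (x y : H) :
    inner ℂ y ((W k * Hs) x) - inner ℂ (L y) ((W k * Hs) (L x))
      = inner ℂ y ((al k : ℂ) • bl xx k) * inner ℂ h x := by
  have h1 : W k * Hs - S * (W k * Hs) * L = W k * E * Hs := by
    have h2 : S * (W k * Hs) * L = W k * (S * L) * Hs := by
      calc S * (W k * Hs) * L = (S * W k) * (Hs * L) := by simp only [mul_assoc]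
        _ = (W k * S) * (L * Hs) := by rw [commute_S_W, commute_L_Hs]
        _ = _ := by simp only [mul_assoc]
    rw [h2, S_mul_L]
    noncomm_ring
  rw [← inner_S_right, ← inner_sub_right]
  have h3 : (W k * Hs) x - S ((W k * Hs) (L x)) = (W k * Hs - S * (W k * Hs) * L) x := rfl
  rw [h3, h1, mul_apply_eq_comp, mul_apply_eq_comp, E, rankOne_apply, map_smul, W_e_zero,
    inner_smul_right, inner_h, mul_comm]

lemma delta_A (x y : H) :
    inner ℂ y (A x) - inner ℂ (L y) (A (L x)) = inner ℂ y g * inner ℂ h x := by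
  have h1 := (hasSum_A x y).sub (hasSum_A (L x) (L y))
  have h2 := ((innerSL ℂ y).hasSum hasSum_g).mul_right (inner ℂ h x)
  refine h1.unique (h2.congr_fun fun k => ?_)
  rw [delta_W]
  rfl

lemma cyclic_h (x : H) (hx : ∀ k, inner ℂ ((L ^ k) x) h = 0) : (x : ℕ → ℂ) = 0 := by
  refine vanish be be_pos be_anti (pos yy) (pos_zero _) (pos_succ_pos _) _ (tendsto_coord x)
    fun k => ?_
  have h1 := hasSum_inner_apply hasSum_Hs ((L ^ k) x) (e 0)
  rw [← inner_h, ← inner_conj_symm, hx, map_zero] at h1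
  refine h1.congr_fun fun j => ?_
  rw [hterm, smul_apply, inner_smul_right, sub_apply, inner_sub_right, inner_e_left, inner_e_left,
    L_pow_apply, L_pow_apply, L_pow_apply, L_pow_apply, zero_add, zero_add, add_comm k, add_comm k]

lemma cyclic_g (x : H) (hx : ∀ k, inner ℂ ((L ^ k) x) g = 0) : (x : ℕ → ℂ) = 0 := by
  refine vanish al al_pos al_anti (pos xx) (pos_zero _) (pos_succ_pos _) _ (tendsto_coord x)
    fun k => ?_
  have h0 : inner ℂ ((1 - S) g) ((L ^ k) x) = 0 := by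
    rw [← inner_conj_symm, sub_apply, one_apply_eq_self, inner_sub_right, inner_S_right,
      ← mul_apply_eq_comp, ← pow_succ', hx, hx, sub_zero, map_zero]
  have h1 := (innerSL ℂ ((L ^ k) x)).hasSum ((1 - S).hasSum hasSum_g)
  have h2 := Complex.conjCLE.hasSum'.2 h1
  simp only [innerSL_apply_apply, Complex.conjCLE_apply, inner_conj_symm] at h2
  rw [h0] at h2
  refine h2.congr_fun fun j => ?_
  rw [map_smul, bl, one_sub_S_blk, ← pos_succ, inner_smul_left, Complex.conj_ofReal,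
    inner_sub_left, inner_e_left, inner_e_left, L_pow_apply, L_pow_apply, add_comm k, add_comm k]

lemma summable_weight {α : ℝ} (h0 : 0 ≤ α)
    (h1 : (Prm.p : ℝ) < (1 - 2 * α) * (Prm.p + Prm.d + 1)) :
    Summable fun j => be j * ((pos yy (j + 1) : ℝ) + 1) ^ α := by
  set δ : ℝ := (1 - 2 * α) * (Prm.p + Prm.d + 1) - Prm.p with hδd
  have hδ : 0 < δ := by linarith
  have hp : (0 : ℝ) ≤ Prm.p := Nat.cast_nonneg _
  have hd : (0 : ℝ) ≤ Prm.d := Nat.cast_nonneg _
  have hα : α ≤ 1 / 2 := by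
    by_contra hc
    nlinarith
  obtain ⟨N, hN⟩ := exists_nat_ge (2 / δ)
  refine Summable.of_norm_bounded_eventually_nat summable_geometric_two ?_
  filter_upwards [eventually_ge_atTop (N + 1)] with j hj
  have hb := be_pos j
  rw [Real.norm_of_nonneg (by positivity)]
  have a1 := pos_succ_le (x := yy) (fun _ _ => yy_mono) j
  have a2 : ((pos yy (j + 1) : ℝ) + 1) ^ α ≤ (2 : ℝ) ^ (((j + 1 + 2 * yy j : ℕ) : ℝ) * α) := by
    rw [Real.rpow_mul (by norm_num)]
    exact Real.rpow_le_rpow (by positivity) a1 h0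
  have a3 : be j = (2 : ℝ) ^ (((bb j : ℕ) : ℝ) - ((yy j : ℕ) : ℝ)) := by
    rw [Real.rpow_sub (by norm_num), Real.rpow_natCast, Real.rpow_natCast, be, div_eq_mul_inv]
  have a4 : (1 / 2 : ℝ) ^ j = (2 : ℝ) ^ (-(j : ℝ)) := by
    rw [Real.rpow_neg (by norm_num), Real.rpow_natCast, one_div, inv_pow]
  refine (mul_le_mul_of_nonneg_left a2 hb.le).trans ?_
  rw [a3, a4, ← Real.rpow_add (by norm_num)]
  refine Real.rpow_le_rpow_of_exponent_le one_le_two ?_
  unfold yy bb
  push_cast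
  have b1 : (N : ℝ) + 1 ≤ j := by exact_mod_cast hj
  have b0 : (0 : ℝ) ≤ N := Nat.cast_nonneg N
  have b2 : 2 ≤ δ * j := by
    rw [div_le_iff₀ hδ] at hN
    nlinarith
  have b3 : (1 : ℝ) ≤ j := by linarith
  have b4 : 2 * (j : ℝ) ^ 2 ≤ δ * j * (j : ℝ) ^ 2 := by gcongr
  have b5 : ((j : ℝ) + 1) * α ≤ j := by nlinarith
  have b6 : (j : ℝ) ≤ (j : ℝ) ^ 2 := by nlinarith
  rw [hδd] at b4
  nlinarith

lemma norm_h_le (n : ℕ) : ∃ c : ℕ → ℂ, HasSum c (inner ℂ h (e n)) ∧
    ∀ j, ‖c j‖ ≤ be j * ((if pos yy j = n then 1 else 0) + (if pos yy (j + 1) = n then 1 else 0)) := by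
  refine ⟨_, inner_h (e n) ▸ hasSum_inner_apply hasSum_Hs (e n) (e 0), fun j => ?_⟩
  rw [hterm, smul_apply, inner_smul_right, sub_apply,
    inner_sub_right, inner_e_left, inner_e_left, L_pow_apply, L_pow_apply, e_apply, e_apply,
    zero_add, zero_add, norm_mul, Complex.norm_real, Real.norm_of_nonneg (be_pos j).le]
  refine mul_le_mul_of_nonneg_left ?_ (be_pos j).le
  split_ifs <;> simp

/-- The smoothness of the co-analytic symbol. -/
lemma summable_h {α : ℝ} (h0 : 0 ≤ α) (h1 : (Prm.p : ℝ) < (1 - 2 * α) * (Prm.p + Prm.d + 1)) :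
    Summable fun n : ℕ => ((n : ℝ) + 1) ^ α * ‖(h : ℕ → ℂ) n‖ := by
  have hw := (summable_weight h0 h1).mul_left 2
  refine summable_of_sum_range_le (c := ∑' j, 2 * (be j * ((pos yy (j + 1) : ℝ) + 1) ^ α))
    (fun n => by positivity) fun N => ?_
  choose c hc hc' using norm_h_le
  have key : ∀ J : ℕ, ∑ n ∈ range N, ((n : ℝ) + 1) ^ α * ‖∑ j ∈ range J, c n j‖ ≤
      ∑' j, 2 * (be j * ((pos yy (j + 1) : ℝ) + 1) ^ α) := by
    intro J
    refine le_trans ?_ (hw.sum_le_tsum (range J) fun j _ => by have := be_pos j; positivity)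
    have s1 : ∀ n ∈ range N, ((n : ℝ) + 1) ^ α * ‖∑ j ∈ range J, c n j‖ ≤
        ∑ j ∈ range J, ((n : ℝ) + 1) ^ α * (be j *
          ((if pos yy j = n then 1 else 0) + (if pos yy (j + 1) = n then 1 else 0))) := by
      intro n _
      rw [← mul_sum]
      gcongr
      exact (norm_sum_le _ _).trans (sum_le_sum fun j _ => hc' n j)
    refine (sum_le_sum s1).trans ?_
    rw [sum_comm]
    refine sum_le_sum fun j _ => ?_
    have s2 : ∀ p : ℕ, p ≤ pos yy (j + 1) → ∑ n ∈ range N, ((n : ℝ) + 1) ^ α *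
        (if p = n then 1 else 0) ≤ ((pos yy (j + 1) : ℝ) + 1) ^ α := by
      intro p hp
      simp only [mul_ite, mul_one, mul_zero, sum_ite_eq]
      split_ifs
      · gcongr
      · positivity
    have s3 := s2 _ (pos_mono yy (Nat.le_succ j))
    have s4 := s2 _ le_rfl
    have s5 : ∑ n ∈ range N, ((n : ℝ) + 1) ^ α * (be j *
        ((if pos yy j = n then 1 else 0) + (if pos yy (j + 1) = n then 1 else 0))) =
        be j * (∑ n ∈ range N, ((n : ℝ) + 1) ^ α * (if pos yy j = n then 1 else 0) +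
          ∑ n ∈ range N, ((n : ℝ) + 1) ^ α * (if pos yy (j + 1) = n then 1 else 0)) := by
      rw [← sum_add_distrib, mul_sum]
      exact sum_congr rfl fun n _ => by ring
    rw [s5]
    have := be_pos j
    nlinarith
  have lim : Tendsto (fun J => ∑ n ∈ range N, ((n : ℝ) + 1) ^ α * ‖∑ j ∈ range J, c n j‖) atTop
      (𝓝 (∑ n ∈ range N, ((n : ℝ) + 1) ^ α * ‖(h : ℕ → ℂ) n‖)) := by
    refine tendsto_finsetSum _ fun n _ => Tendsto.const_mul _ ?_
    have := (hc n).tendsto_sum_nat.norm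
    rwa [inner_e_right, RCLike.norm_conj] at this
  exact le_of_tendsto' lim key

lemma g_apply (k i : ℕ) (hi : i < 4 ^ xx k) : (g : ℕ → ℂ) (pos xx k + i) = (al k : ℂ) := by
  have h1 := (innerSL ℂ (e (pos xx k + i))).hasSum hasSum_g
  rw [innerSL_apply_apply, inner_e_left] at h1
  refine h1.unique ((hasSum_ite_eq k (al k : ℂ)).congr_fun fun j => ?_)
  rw [innerSL_apply_apply, inner_smul_right, bl, inner_e_blk, ← pos_succ]
  rcases lt_trichotomy j k with hj | rfl | hj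
  · have := pos_mono xx (show j + 1 ≤ k from hj)
    rw [if_neg (by omega), if_neg hj.ne, mul_zero]
  · rw [if_pos ⟨by omega, by rw [pos_succ]; omega⟩, if_pos rfl, mul_one]
  · have := pos_mono xx (show k + 1 ≤ j from hj)
    rw [pos_succ] at this
    rw [if_neg (by omega), if_neg hj.ne', mul_zero]

lemma block_le {β : ℝ} (h0 : 0 ≤ β) (h1 : 2 * β * (Prm.p + Prm.d + 1) ≤ Prm.p) (k : ℕ) :
    ∑ i ∈ range (4 ^ xx k), (((pos xx k + i : ℕ) : ℝ) + 1) ^ (2 * β) *
      ‖(g : ℕ → ℂ) (pos xx k + i)‖ ^ 2 ≤ 64 * (1 / 2) ^ k := by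
  have hp : (0 : ℝ) ≤ Prm.p := Nat.cast_nonneg _
  have hd : (0 : ℝ) ≤ Prm.d := Nat.cast_nonneg _
  have hβ : 2 * β ≤ 1 := by
    by_contra hc
    nlinarith
  have a1 := pos_succ_le (x := xx) (fun _ _ => xx_mono) k
  have a2 : ∀ i ∈ range (4 ^ xx k), (((pos xx k + i : ℕ) : ℝ) + 1) ^ (2 * β) *
      ‖(g : ℕ → ℂ) (pos xx k + i)‖ ^ 2 ≤
      (2 : ℝ) ^ (((k + 1 + 2 * xx k : ℕ) : ℝ) * (2 * β)) * al k ^ 2 := by
    intro i hi
    have hi' := mem_range.mp hi
    rw [g_apply k i hi', Complex.norm_real, Real.norm_of_nonneg (al_pos k).le,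
      Real.rpow_mul (x := 2) (by norm_num)]
    gcongr
    refine le_trans ?_ a1
    have : pos xx k + i ≤ pos xx (k + 1) := by rw [pos_succ]; omega
    have : ((pos xx k + i : ℕ) : ℝ) ≤ (pos xx (k + 1) : ℝ) := by exact_mod_cast this
    linarith
  refine (sum_le_card_nsmul _ _ _ a2).trans ?_
  have a3 : ((4 ^ xx k : ℕ) : ℝ) * al k ^ 2 = (2 : ℝ) ^ (-(2 * (bb k : ℝ))) := by
    rw [Real.rpow_neg (by norm_num), mul_comm (2 : ℝ), Real.rpow_mul (by norm_num),
      Real.rpow_natCast, Real.rpow_two, four_pow_eq, al]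
    field_simp
  have a4 : (64 : ℝ) * (1 / 2) ^ k = (2 : ℝ) ^ (6 - (k : ℝ)) := by
    rw [Real.rpow_sub (by norm_num), Real.rpow_natCast, one_div, inv_pow, div_eq_mul_inv]
    norm_num
  rw [card_range, nsmul_eq_mul, mul_left_comm, a3, a4, ← Real.rpow_add (by norm_num)]
  refine Real.rpow_le_rpow_of_exponent_le one_le_two ?_
  unfold xx yy bb
  push_cast
  have b0 : (0 : ℝ) ≤ k := Nat.cast_nonneg k
  have b1 : 2 * β * (Prm.p + Prm.d + 1) * (k : ℝ) ^ 3 ≤ Prm.p * (k : ℝ) ^ 3 := by gcongr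
  have b2 : (5 * (k : ℝ) + 1) * (2 * β) ≤ (5 * (k : ℝ) + 1) * 1 := by gcongr
  nlinarith [sq_nonneg (2 * (k : ℝ) - 3)]

/-- The smoothness of the analytic symbol. -/
lemma summable_gw {β : ℝ} (h0 : 0 ≤ β) (h1 : 2 * β * (Prm.p + Prm.d + 1) ≤ Prm.p) :
    Summable fun n : ℕ => ((n : ℝ) + 1) ^ (2 * β) * ‖(g : ℕ → ℂ) n‖ ^ 2 := by
  have key : ∀ K, ∑ n ∈ range (pos xx K), ((n : ℝ) + 1) ^ (2 * β) * ‖(g : ℕ → ℂ) n‖ ^ 2 ≤
      ∑ k ∈ range K, 64 * (1 / 2 : ℝ) ^ k := by
    intro K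
    induction K with
    | zero => simp [pos_zero]
    | succ K ih =>
      rw [pos_succ, sum_range_add, sum_range_succ]
      exact add_le_add ih (block_le h0 h1 K)
  refine summable_of_sum_range_le (c := 64 * 2) (fun n => by positivity) fun N => ?_
  refine (sum_le_sum_of_subset_of_nonneg (range_subset_range.mpr (le_pos xx N))
    fun n _ _ => by positivity).trans ((key N).trans ?_)
  exact sum_le_hasSum _ (fun k _ => by positivity) (hasSum_geometric_two.mul_left 64)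

omit [Prm] in
lemma exists_prm {α β : ℝ} (hα : 0 ≤ α) (hβ : 0 ≤ β) (h : α + β < 1 / 2) :
    ∃ P : Prm, (P.p : ℝ) < (1 - 2 * α) * (P.p + P.d + 1) ∧ 2 * β * (P.p + P.d + 1) ≤ P.p := by
  have hδ : 0 < 1 - 2 * α - 2 * β := by linarith
  obtain ⟨q, hq⟩ := exists_nat_gt (1 / (1 - 2 * α - 2 * β))
  rw [div_lt_iff₀ hδ] at hq
  have hq0 : (0 : ℝ) ≤ q := Nat.cast_nonneg q
  have c1 := Nat.le_ceil (2 * β * q)
  have c2 := Nat.ceil_lt_add_one (show 0 ≤ 2 * β * q by positivity)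
  have c3 : (⌈2 * β * q⌉₊ : ℝ) < (1 - 2 * α) * q := by nlinarith
  have c4 : ⌈2 * β * q⌉₊ < q := by
    have : (⌈2 * β * q⌉₊ : ℝ) < q := by nlinarith
    exact_mod_cast this
  obtain ⟨d, hd⟩ := Nat.exists_eq_add_of_lt c4
  have c5 : (⌈2 * β * q⌉₊ : ℝ) + d + 1 = q := by exact_mod_cast hd.symm
  refine ⟨⟨⌈2 * β * q⌉₊, d⟩, ?_, ?_⟩
  · show (⌈2 * β * q⌉₊ : ℝ) < (1 - 2 * α) * ((⌈2 * β * q⌉₊ : ℝ) + d + 1)
    rw [c5]
    exact c3
  · show 2 * β * ((⌈2 * β * q⌉₊ : ℝ) + d + 1) ≤ (⌈2 * β * q⌉₊ : ℝ)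
    rw [c5]
    exact c1

end Pool.Agent.Lib.MP_db815c_an.Par
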