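import Mathlib

/-!
The unilateral shift on the sequence space, its Cesaro means, and block vectors.
-/

set_option autoImplicit false

open scoped ENNReal
open InnerProductSpace Finset

noncomputable section

namespace Pool.Agent.Lib.MP_db815c_an

/-- The sequence space. -/
abbrev H : Type := lp (fun _ : ℕ => ℂ) 2

/-- Standard basis vectors. -/
def e (j : ℕ) : H := lp.single 2 j 1

lemma inner_e_left (j : ℕ) (x : H) : inner ℂ (e j) x = (x : ℕ → ℂ) j := by
  simp [e, lp.inner_single_left]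

lemma e_apply (j i : ℕ) : (e j : ℕ → ℂ) i = if i = j then 1 else 0 := by
  simp [e, lp.single_apply, Pi.single_apply]

lemma orthonormal_e : Orthonormal ℂ e := by
  rw [orthonormal_iff_ite]
  intro i j
  rw [inner_e_left, e_apply]

lemma norm_e (j : ℕ) : ‖e j‖ = 1 := orthonormal_e.1 j

lemma vec_ext {x y : H} (h : ∀ i, inner ℂ (e i) x = inner ℂ (e i) y) : x = y := by
  apply lp.ext
  funext i
  rw [← inner_e_left, ← inner_e_left, h]

lemma ext_e {B C : H →L[ℂ] H} (h : ∀ j, B (e j) = C (e j)) : B = C := by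
  apply lp.ext_continuousLinearMap (by simp)
  intro i
  ext1
  simpa [e] using h i

/-- The isometry attached to an orthonormal sequence. -/
def iso (v : ℕ → H) (hv : Orthonormal ℂ v) : H →L[ℂ] H :=
  hv.orthogonalFamily.linearIsometry.toContinuousLinearMap

lemma iso_e (v : ℕ → H) (hv : Orthonormal ℂ v) (j : ℕ) : iso v hv (e j) = v j := by
  simp [iso, e]

lemma norm_iso_apply (v : ℕ → H) (hv : Orthonormal ℂ v) (x : H) : ‖iso v hv x‖ = ‖x‖ := by
  simp [iso]

lemma norm_iso_le (v : ℕ → H) (hv : Orthonormal ℂ v) : ‖iso v hv‖ ≤ 1 :=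
  ContinuousLinearMap.opNorm_le_bound _ zero_le_one fun x => by simp [norm_iso_apply]

lemma inner_star_right (B : H →L[ℂ] H) (x y : H) :
    inner ℂ x ((star B) y) = inner ℂ (B x) y := by
  rw [ContinuousLinearMap.star_eq_adjoint, ContinuousLinearMap.adjoint_inner_right]

lemma inner_star_left (B : H →L[ℂ] H) (x y : H) :
    inner ℂ ((star B) x) y = inner ℂ x (B y) := by
  rw [ContinuousLinearMap.star_eq_adjoint, ContinuousLinearMap.adjoint_inner_left]

lemma norm_star_op (B : H →L[ℂ] H) : ‖star B‖ = ‖B‖ := by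
  rw [ContinuousLinearMap.star_eq_adjoint]
  exact ContinuousLinearMap.adjoint.norm_map B

lemma star_iso_apply (v : ℕ → H) (hv : Orthonormal ℂ v) (x : H) (j : ℕ) :
    ((star (iso v hv)) x : ℕ → ℂ) j = inner ℂ (v j) x := by
  rw [← inner_e_left, inner_star_right, iso_e]

lemma star_iso_mul (v : ℕ → H) (hv : Orthonormal ℂ v) : star (iso v hv) * iso v hv = 1 := by
  apply ext_e
  intro j
  apply vec_ext
  intro i
  rw [mul_apply_eq_comp, inner_star_right, iso_e, iso_e, one_apply_eq_self,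
    orthonormal_iff_ite.1 hv, orthonormal_iff_ite.1 orthonormal_e]

lemma orthonormal_e_succ : Orthonormal ℂ (fun n => e (n + 1)) :=
  orthonormal_e.comp _ (add_left_injective 1)

/-- The unilateral shift. -/
def S : H →L[ℂ] H := iso (fun n => e (n + 1)) orthonormal_e_succ

/-- The backward shift. -/
def L : H →L[ℂ] H := star S

/-- The projection onto the first coordinate. -/
def E : H →L[ℂ] H := rankOne ℂ (e 0) (e 0)

lemma star_S : star S = L := rfl

lemma star_L : star L = S := star_star S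

lemma S_e (j : ℕ) : S (e j) = e (j + 1) := iso_e _ _ j

lemma norm_S_apply (x : H) : ‖S x‖ = ‖x‖ := norm_iso_apply _ _ x

lemma norm_S_le : ‖S‖ ≤ 1 := norm_iso_le _ _

lemma norm_L_le : ‖L‖ ≤ 1 := by
  rw [L, norm_star_op]; exact norm_S_le

lemma L_mul_S : L * S = 1 := star_iso_mul _ _

lemma inner_L_right (x y : H) : inner ℂ x (L y) = inner ℂ (S x) y := inner_star_right S x y

lemma inner_S_right (x y : H) : inner ℂ x (S y) = inner ℂ (L x) y := (inner_star_left S x y).symm

lemma L_e_zero : L (e 0) = 0 := by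
  apply vec_ext
  intro i
  rw [inner_L_right, S_e, inner_e_left, e_apply]
  simp

lemma L_e_succ (j : ℕ) : L (e (j + 1)) = e j := by
  rw [← S_e, ← mul_apply_eq_comp, L_mul_S, one_apply_eq_self]

lemma S_mul_L : S * L = 1 - E := by
  apply ext_e
  intro j
  cases j with
  | zero => simp [L_e_zero, E, norm_e]
  | succ j =>
    simp only [mul_apply_eq_comp, L_e_succ, S_e, E, sub_apply,
      one_apply_eq_self, rankOne_apply, inner_e_left, e_apply]
    simp

lemma S_pow_e (i j : ℕ) : (S ^ i) (e j) = e (j + i) := by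
  induction i with
  | zero => simp
  | succ i ih => rw [pow_succ', mul_apply_eq_comp, ih, S_e, add_assoc]

lemma norm_S_pow_apply (i : ℕ) (x : H) : ‖(S ^ i) x‖ = ‖x‖ := by
  induction i with
  | zero => simp
  | succ i ih => rw [pow_succ', mul_apply_eq_comp, norm_S_apply, ih]

lemma norm_S_pow_le (i : ℕ) : ‖S ^ i‖ ≤ 1 :=
  ContinuousLinearMap.opNorm_le_bound _ zero_le_one fun x => by
    rw [norm_S_pow_apply, one_mul]

lemma norm_L_pow_le (i : ℕ) : ‖L ^ i‖ ≤ 1 := by
  rw [L, ← star_pow, norm_star_op]; exact norm_S_pow_le i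

lemma inner_L_pow_right (i : ℕ) (x y : H) :
    inner ℂ x ((L ^ i) y) = inner ℂ ((S ^ i) x) y := by
  rw [L, ← star_pow, inner_star_right]

lemma L_pow_apply (i : ℕ) (x : H) (n : ℕ) : ((L ^ i) x : ℕ → ℂ) n = (x : ℕ → ℂ) (n + i) := by
  rw [← inner_e_left, inner_L_pow_right, S_pow_e, inner_e_left]

/-- The sum of the first powers of the shift. -/
def D (n : ℕ) : H →L[ℂ] H := ∑ i ∈ range n, S ^ i

lemma norm_D_le (n : ℕ) : ‖D n‖ ≤ n := by
  refine (norm_sum_le _ _).trans ?_
  calc ∑ i ∈ range n, ‖S ^ i‖ ≤ ∑ _i ∈ range n, (1 : ℝ) := sum_le_sum fun i _ => norm_S_pow_le i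
    _ = n := by simp

lemma D_mul_one_sub (n : ℕ) : D n * (1 - S) = 1 - S ^ n := geom_sum_mul_neg S n

lemma one_sub_mul_D (n : ℕ) : (1 - S) * D n = 1 - S ^ n := mul_neg_geom_sum S n

lemma commute_S_D (n : ℕ) : Commute S (D n) :=
  Commute.sum_right _ _ _ fun i _ => (Commute.refl S).pow_right i

lemma commute_S_pow_D (i n : ℕ) : Commute (S ^ i) (D n) := (commute_S_D n).pow_left i

lemma norm_one_sub_S_pow_le (n : ℕ) : ‖1 - S ^ n‖ ≤ 2 := by
  refine (norm_sub_le _ _).trans ?_
  have h1 : ‖(1 : H →L[ℂ] H)‖ ≤ 1 := ContinuousLinearMap.norm_id_le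
  linarith [norm_S_pow_le n]

/-- The block vector: indicator of the interval of length `n` starting at `p`. -/
def blk (p n : ℕ) : H := ∑ i ∈ range n, e (p + i)

lemma D_e (n p : ℕ) : D n (e p) = blk p n := by
  simp only [D, blk, _root_.sum_apply, S_pow_e]

lemma S_pow_blk (i p n : ℕ) : (S ^ i) (blk p n) = blk (p + i) n := by
  simp only [blk, map_sum, S_pow_e]
  refine sum_congr rfl fun j _ => ?_
  congr 1
  ring

lemma inner_blk_blk (p n q m : ℕ) :
    inner ℂ (blk p n) (blk q m)
      = ∑ i ∈ range n, ∑ j ∈ range m, if p + i = q + j then (1 : ℂ) else 0 := by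
  simp only [blk, sum_inner, inner_sum, orthonormal_iff_ite.1 orthonormal_e]
  rw [sum_comm]

lemma inner_blk_self (p n : ℕ) : inner ℂ (blk p n) (blk p n) = (n : ℂ) := by
  rw [inner_blk_blk]
  simp only [add_right_inj]
  rw [sum_congr rfl (g := fun _ => (1 : ℂ))]
  · simp
  · intro i hi
    simp [hi]

lemma inner_blk_of_le {p n q m : ℕ} (h : p + n ≤ q) : inner ℂ (blk p n) (blk q m) = 0 := by
  rw [inner_blk_blk]
  refine sum_eq_zero fun i hi => sum_eq_zero fun j _ => ?_
  have := mem_range.1 hi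
  rw [if_neg (by omega)]

lemma norm_blk (p n : ℕ) : ‖blk p n‖ = √n := by
  have h := inner_blk_self p n
  rw [inner_self_eq_norm_sq_to_K] at h
  have h2 : ‖blk p n‖ ^ 2 = (n : ℝ) := by
    have : ((‖blk p n‖ ^ 2 : ℝ) : ℂ) = ((n : ℝ) : ℂ) := by
      push_cast; exact h
    exact_mod_cast this
  rw [← h2, Real.sqrt_sq (norm_nonneg _)]

end Pool.Agent.Lib.MP_db815c_an
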