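import Pool.Agent.Lib.MP_db815c_an.Final

/-!
The smoothness threshold: a Toeplitz product with a smooth co-analytic symbol is a Toeplitz
operator plus a compact operator, and the symbol of the counterexample is nearly that smooth.
-/

set_option autoImplicit false

open scoped ENNReal Topology
open InnerProductSpace Finset Filter

noncomputable section

namespace Pool.Agent.Lib.MP_db815c_an

/-- The finite rank defect of the product of an analytic symbol with a power of the backward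
shift. -/
def Kk (a : H) (k : ℕ) : H →L[ℂ] H := ∑ j ∈ range k, rankOne ℂ ((L ^ (k - j)) a) (e j)

lemma hasSum_tail (a : H) (n : ℕ) :
    HasSum (fun m => if n ≤ m then ‖(a : ℕ → ℂ) m‖ ^ 2 else 0) (‖(L ^ n) a‖ ^ 2) := by
  have h1 := lp.hasSum_norm (p := 2) (by norm_num) ((L ^ n) a)
  simp only [ENNReal.toReal_ofNat, Real.rpow_ofNat, L_pow_apply] at h1
  rw [← hasSum_nat_add_iff' n, sum_eq_zero fun i hi => if_neg (by have := mem_range.mp hi; omega),
    sub_zero]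
  exact h1.congr_fun fun m => if_pos (by omega)

lemma sum_tail_le (a : H) {β : ℝ} (h0 : 0 ≤ β) (h1 : β ≤ 1 / 2)
    (ha : Summable fun n : ℕ => ((n : ℝ) + 1) ^ (2 * β) * ‖(a : ℕ → ℂ) n‖ ^ 2) (k : ℕ) :
    ∑ j ∈ range k, ‖(L ^ (k - j)) a‖ ^ 2 ≤ ((k : ℝ) + 1) ^ (1 - 2 * β) *
      ∑' n : ℕ, ((n : ℝ) + 1) ^ (2 * β) * ‖(a : ℕ → ℂ) n‖ ^ 2 := by
  refine hasSum_le (fun m => ?_) (hasSum_sum fun j _ => hasSum_tail a (k - j))
    (ha.hasSum.mul_left _)
  rw [← sum_filter, sum_const, nsmul_eq_mul, ← mul_assoc]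
  gcongr
  set c := ((range k).filter (fun j => k - j ≤ m)).card with hc
  have c1 : c ≤ k := (card_filter_le _ _).trans (card_range k).le
  have c2 : c ≤ m := by
    refine (card_le_card (t := Ico (k - m) k) fun j hj => ?_).trans (by rw [Nat.card_Ico]; omega)
    obtain ⟨a1, a2⟩ := mem_filter.mp hj
    have := mem_range.mp a1
    exact mem_Ico.mpr ⟨by omega, this⟩
  have c3 : (c : ℝ) ≤ k := by exact_mod_cast c1
  have c4 : (c : ℝ) ≤ m := by exact_mod_cast c2
  have c5 : (0 : ℝ) ≤ c := Nat.cast_nonneg c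
  calc (c : ℝ) ≤ ((c : ℝ) + 1) ^ (1 - 2 * β) * ((c : ℝ) + 1) ^ (2 * β) := by
        rw [← Real.rpow_add (by positivity), sub_add_cancel, Real.rpow_one]
        linarith
    _ ≤ _ := by
        have : 0 ≤ 1 - 2 * β := by linarith
        gcongr

lemma norm_Kk_le (a : H) {β : ℝ} (h0 : 0 ≤ β) (h1 : β ≤ 1 / 2)
    (ha : Summable fun n : ℕ => ((n : ℝ) + 1) ^ (2 * β) * ‖(a : ℕ → ℂ) n‖ ^ 2) (k : ℕ) :
    ‖Kk a k‖ ≤ ((k : ℝ) + 1) ^ (1 / 2 - β) *
      √(∑' n : ℕ, ((n : ℝ) + 1) ^ (2 * β) * ‖(a : ℕ → ℂ) n‖ ^ 2) := by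
  refine ContinuousLinearMap.opNorm_le_bound _ (by positivity) fun x => ?_
  rw [Kk, _root_.sum_apply]
  refine (norm_sum_le _ _).trans ?_
  have e1 : ∀ j ∈ range k, ‖rankOne ℂ ((L ^ (k - j)) a) (e j) x‖ =
      ‖(L ^ (k - j)) a‖ * ‖inner ℂ (e j) x‖ := by
    intro j _
    rw [rankOne_apply, norm_smul, mul_comm]
  rw [sum_congr rfl e1]
  refine (Real.sum_mul_le_sqrt_mul_sqrt _ _ _).trans ?_
  gcongr
  · refine (Real.sqrt_le_sqrt (sum_tail_le a h0 h1 ha k)).trans (le_of_eq ?_)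
    rw [Real.sqrt_mul (by positivity), Real.sqrt_eq_rpow, ← Real.rpow_mul (by positivity)]
    congr 2
    ring
  · exact Real.sqrt_le_iff.mpr ⟨norm_nonneg _, orthonormal_e.sum_inner_products_le x⟩

lemma Kk_entry (a : H) (k i j : ℕ) : inner ℂ (e i) (Kk a k (e j))
    = if j < k then (a : ℕ → ℂ) (i + (k - j)) else 0 := by
  rw [Kk, _root_.sum_apply, inner_sum]
  have h1 : ∀ l ∈ range k, inner ℂ (e i) (rankOne ℂ ((L ^ (k - l)) a) (e l) (e j))
      = if l = j then (a : ℕ → ℂ) (i + (k - l)) else 0 := by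
    intro l _
    rw [rankOne_apply, inner_smul_right, inner_e_left, inner_e_left, e_apply, L_pow_apply]
    split_ifs <;> simp
  rw [sum_congr rfl h1, sum_ite_eq']
  simp only [mem_range]

lemma summable_K (a b : H) {α β : ℝ} (hα : 0 ≤ α) (hβ : 0 ≤ β) (hαβ : 1 / 2 ≤ α + β)
    (ha : Summable fun n : ℕ => ((n : ℝ) + 1) ^ (2 * β) * ‖(a : ℕ → ℂ) n‖ ^ 2)
    (hb : Summable fun n : ℕ => ((n : ℝ) + 1) ^ α * ‖(b : ℕ → ℂ) n‖) :
    Summable fun k => starRingEnd ℂ ((b : ℕ → ℂ) k) • Kk a k := by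
  wlog h1 : β ≤ 1 / 2 generalizing β
  · refine this (β := 1 / 2) (by norm_num) (by linarith) ?_ le_rfl
    refine Summable.of_nonneg_of_le (fun n => by positivity) (fun n => ?_) ha
    gcongr
    · have : (0 : ℝ) ≤ n := Nat.cast_nonneg n
      linarith
    · linarith
  refine Summable.of_norm_bounded (hb.mul_right
    (√(∑' n : ℕ, ((n : ℝ) + 1) ^ (2 * β) * ‖(a : ℕ → ℂ) n‖ ^ 2))) fun k => ?_
  rw [norm_smul, RCLike.norm_conj, mul_comm (_ ^ α), mul_assoc]
  gcongr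
  refine (norm_Kk_le a hβ h1 ha k).trans ?_
  gcongr
  · have : (0 : ℝ) ≤ k := Nat.cast_nonneg k
    linarith
  · linarith

/-- The product plus its compact defect has a matrix that is constant along diagonals. -/
lemma toep_add (a b : H) (hb : Summable fun k => starRingEnd ℂ ((b : ℕ → ℂ) k) • Kk a k)
    (B : H →L[ℂ] H)
    (hB : ∀ i j, inner ℂ (e (i + 1)) (B (e (j + 1))) = inner ℂ (e i) (B (e j)) +
      (a : ℕ → ℂ) (i + 1) * starRingEnd ℂ ((b : ℕ → ℂ) (j + 1))) (i j : ℕ) :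
    inner ℂ (e (i + 1)) ((B + ∑' k, starRingEnd ℂ ((b : ℕ → ℂ) k) • Kk a k) (e (j + 1)))
      = inner ℂ (e i) ((B + ∑' k, starRingEnd ℂ ((b : ℕ → ℂ) k) • Kk a k) (e j)) := by
  have hs := hb.hasSum
  have h1 := hasSum_inner_apply hs (e (j + 1)) (e (i + 1))
  have h2 := hasSum_inner_apply hs (e j) (e i)
  have h3 := h1.add (hasSum_ite_eq (j + 1)
    ((a : ℕ → ℂ) (i + 1) * starRingEnd ℂ ((b : ℕ → ℂ) (j + 1))))
  have h4 := h2.unique (h3.congr_fun fun k => by
    simp only [smul_apply, inner_smul_right, Kk_entry]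
    rcases lt_trichotomy k (j + 1) with hk | rfl | hk
    · rw [if_neg (by omega), if_neg (by omega), if_neg (by omega)]
      simp
    · rw [if_pos (by omega), if_neg (by omega), if_pos rfl, Nat.add_sub_cancel_left]
      ring
    · rw [if_pos (by omega), if_pos hk, if_neg (by omega),
        show i + 1 + (k - (j + 1)) = i + (k - j) by omega, add_zero])
  rw [add_apply, add_apply, inner_add_right,
    inner_add_right, hB, h4]
  ring

lemma rankOne_e (i j : ℕ) : rankOne ℂ (e i) (e j) = S ^ i * (1 - S * L) * L ^ j := by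
  have h4 : 1 - S * L = E := by rw [S_mul_L]; noncomm_ring
  rw [h4]
  ext1 x
  rw [mul_apply_eq_comp, mul_apply_eq_comp, E, rankOne_apply, rankOne_apply, map_smul, S_pow_e,
    zero_add, inner_L_pow_right, S_pow_e, zero_add]

lemma mem_of_hasSum {T : StarSubalgebra ℂ (H →L[ℂ] H)} (hT : IsClosed (T : Set (H →L[ℂ] H)))
    {f : ℕ → H →L[ℂ] H} {B : H →L[ℂ] H} (h : HasSum f B) (hf : ∀ i, f i ∈ T) : B ∈ T :=
  hT.mem_of_tendsto h (Eventually.of_forall fun _ => sum_mem fun i _ => hf i)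

lemma rankOne_mem {T : StarSubalgebra ℂ (H →L[ℂ] H)} (hT : IsClosed (T : Set (H →L[ℂ] H)))
    (hS : S ∈ T) (x : H) (j : ℕ) : rankOne ℂ x (e j) ∈ T := by
  have hL : L ∈ T := star_mem hS
  have h1 : HasSum (fun i => (x : ℕ → ℂ) i • e i) x := by
    refine (lp.hasSum_single (by simp) x).congr_fun fun i => ?_
    rw [e, ← lp.single_smul, smul_eq_mul, mul_one]
  have h2 := (((rankOne ℂ : H →L[ℂ] H →L⋆[ℂ] H →L[ℂ] H).flip) (e j)).hasSum h1
  refine mem_of_hasSum hT h2 fun i => ?_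
  rw [map_smul, ContinuousLinearMap.flip_apply, rankOne_e]
  exact T.smul_mem (mul_mem (mul_mem (pow_mem hS i) (sub_mem (one_mem _) (mul_mem hS hL)))
    (pow_mem hL j)) _

/-- The positive side of the threshold. -/
lemma mem_of_smooth {T : StarSubalgebra ℂ (H →L[ℂ] H)} (hT : IsClosed (T : Set (H →L[ℂ] H)))
    (hs : ∀ C : H →L[ℂ] H, (∀ i j, inner ℂ (e (i + 1)) (C (e (j + 1))) = inner ℂ (e i) (C (e j))) →
      C ∈ T)
    (a b : H) (hb : Summable fun k => starRingEnd ℂ ((b : ℕ → ℂ) k) • Kk a k) (B : H →L[ℂ] H)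
    (hB : ∀ i j, inner ℂ (e (i + 1)) (B (e (j + 1))) = inner ℂ (e i) (B (e j)) +
      (a : ℕ → ℂ) (i + 1) * starRingEnd ℂ ((b : ℕ → ℂ) (j + 1))) : B ∈ T := by
  have hS : S ∈ T := hs S fun i j => by
    rw [S_e, S_e, inner_e_left, inner_e_left, e_apply, e_apply]
    simp only [add_left_inj]
  have hK : (∑' k, starRingEnd ℂ ((b : ℕ → ℂ) k) • Kk a k) ∈ T :=
    mem_of_hasSum hT hb.hasSum fun k =>
      T.smul_mem (sum_mem fun j _ => rankOne_mem hT hS _ j) _
  have := sub_mem (hs _ (toep_add a b hb B hB)) hK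
  rwa [add_sub_cancel_right] at this

lemma pos_succ_le {x : ℕ → ℕ} (hx : ∀ i j, i ≤ j → x i ≤ x j) (j : ℕ) :
    (pos x (j + 1) : ℝ) + 1 ≤ (2 : ℝ) ^ (((j + 1 + 2 * x j : ℕ) : ℝ)) := by
  have h1 : pos x (j + 1) ≤ (j + 1) * 4 ^ x j := by
    rw [pos]
    refine (sum_le_card_nsmul _ _ (4 ^ x j) fun i hi => ?_).trans (by simp)
    have := mem_range.mp hi
    exact Nat.pow_le_pow_right (by norm_num) (hx i j (by omega))
  have h2 : j + 2 ≤ 2 ^ (j + 1) := Nat.lt_two_pow_self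
  have h3 : 1 ≤ 4 ^ x j := Nat.one_le_pow _ _ (by norm_num)
  have h4 : pos x (j + 1) + 1 ≤ 2 ^ (j + 1) * 4 ^ x j := by nlinarith
  rw [Real.rpow_natCast, pow_add, pow_mul]
  norm_num
  exact_mod_cast h4

lemma le_pos (x : ℕ → ℕ) (k : ℕ) : k ≤ pos x k := by
  induction k with
  | zero => exact Nat.zero_le _
  | succ k ih =>
    have : 1 ≤ 4 ^ x k := Nat.one_le_pow _ _ (by norm_num)
    rw [pos_succ]
    omega

lemma inner_e_blk (n p m : ℕ) : inner ℂ (e n) (blk p m) = if p ≤ n ∧ n < p + m then 1 else 0 := by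
  rw [blk, inner_sum]
  simp only [inner_e_left, e_apply]
  split_ifs with hn
  · rw [sum_eq_single (n - p)]
    · rw [if_pos (by omega)]
    · intro i _ hi
      rw [if_neg (by omega)]
    · intro hi
      exact (hi (mem_range.mpr (by omega))).elim
  · refine sum_eq_zero fun i hi => if_neg ?_
    have := mem_range.mp hi
    omega

end Pool.Agent.Lib.MP_db815c_an
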