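import Pool.Agent.Lib.MP_db815c_an.Shift

/-!
A bounded operator whose matrix is constant along diagonals has a bounded symbol.
-/

set_option autoImplicit false

open scoped ENNReal Topology
open InnerProductSpace Finset Filter MeasureTheory AddCircle

noncomputable section

namespace Pool.Agent.Lib.MP_db815c_an

lemma summable_sq (x : H) : Summable fun n => ‖(x : ℕ → ℂ) n‖ ^ (2 : ℝ≥0∞).toReal :=
  (memℓp_gen_iff (by norm_num)).mp (lp.memℓp x)

lemma fejer_bound (C : H →L[ℂ] H) (a : ℤ → ℂ)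
    (ha : ∀ i j : ℕ, inner ℂ (e i) (C (e j)) = a ((i : ℤ) - j)) (N : ℕ) (t : AddCircle (1 : ℝ)) :
    ‖∑ j ∈ range N, ∑ i ∈ range N, a ((i : ℤ) - j) * fourier ((i : ℤ) - j) t‖ ≤ N * ‖C‖ := by
  set v : H := ∑ j ∈ range N, (fourier (-(j : ℤ)) t : ℂ) • e j with hv
  have h1 : inner ℂ v (C v) =
      ∑ j ∈ range N, ∑ i ∈ range N, a ((i : ℤ) - j) * fourier ((i : ℤ) - j) t := by
    rw [hv, map_sum, inner_sum]
    refine sum_congr rfl fun j _ => ?_
    rw [sum_inner]
    refine sum_congr rfl fun i _ => ?_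
    rw [map_smul, inner_smul_left, inner_smul_right, ha, ← fourier_neg, neg_neg, sub_eq_add_neg,
      fourier_add]
    ring
  have h2 : inner ℂ v v = (N : ℂ) := by
    rw [hv, orthonormal_e.inner_sum]
    rw [sum_congr rfl (g := fun _ => (1 : ℂ)) fun i _ => by
      rw [← fourier_neg, ← fourier_add, neg_add_cancel, fourier_zero]]
    simp
  have h3 : ‖v‖ ^ 2 = N := by
    rw [norm_sq_eq_re_inner (𝕜 := ℂ), h2]
    simp
  rw [← h1]
  calc ‖inner ℂ v (C v)‖ ≤ ‖v‖ * ‖C v‖ := norm_inner_le_norm _ _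
    _ ≤ ‖v‖ * (‖C‖ * ‖v‖) := by gcongr; exact C.le_opNorm v
    _ = N * ‖C‖ := by rw [← h3]; ring

lemma window_sum {Y : Type} [AddCommMonoid Y] (b : ℤ → Y) {N j : ℕ} (hj : j < N) :
    ∑ i ∈ range N, b ((i : ℤ) - j) =
      ∑ n ∈ range (N - 1 - j + 1), b n + ∑ n ∈ range j, b (-((n : ℤ) + 1)) := by
  conv_lhs => rw [show N = j + (N - 1 - j + 1) by omega, sum_range_add]
  rw [add_comm]
  congr 1
  · exact sum_congr rfl fun n _ => by congr 1; push_cast; ring
  · rw [← sum_range_reflect]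
    refine sum_congr rfl fun n hn => ?_
    have := mem_range.mp hn
    congr 1
    omega

/-- The theorem of Brown and Halmos. -/
lemma exists_symbol (C : H →L[ℂ] H)
    (hC : ∀ i j, inner ℂ (e (i + 1)) (C (e (j + 1))) = inner ℂ (e i) (C (e j))) :
    ∃ φ : AddCircle (1 : ℝ) → ℂ, MemLp φ ⊤ haarAddCircle ∧
      ∀ i j : ℕ, inner ℂ (e i) (C (e j)) = fourierCoeff φ ((i : ℤ) - (j : ℤ)) := by
  set a : ℤ → ℂ := fun n => inner ℂ (e n.toNat) (C (e (-n).toNat)) with had
  have hm : ∀ m i j, inner ℂ (e (i + m)) (C (e (j + m))) = inner ℂ (e i) (C (e j)) := by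
    intro m i j
    induction m with
    | zero => rfl
    | succ m ih => rw [← add_assoc, ← add_assoc, hC, ih]
  have ha : ∀ i j : ℕ, inner ℂ (e i) (C (e j)) = a ((i : ℤ) - j) := by
    intro i j
    simp only [had]
    rw [← hm (min i j) ((i : ℤ) - j).toNat (-((i : ℤ) - j)).toNat]
    congr 2
    · omega
    · congr 1
      omega
  have hmem : Memℓp a 2 := by
    refine memℓp_gen (Summable.of_nat_of_neg ?_ ?_)
    · refine (summable_sq (C (e 0))).congr fun n => ?_
      rw [← inner_e_left, ha]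
      simp
    · refine (summable_sq (star C (e 0))).congr fun n => ?_
      rw [← inner_e_left, inner_star_right, norm_inner_symm, ha]
      simp
  set φ : Lp ℂ 2 (@haarAddCircle 1 _) := fourierBasis.repr.symm ⟨a, hmem⟩ with hφ
  have hco : ∀ n, fourierCoeff φ n = a n := by
    intro n
    rw [← fourierBasis_repr, hφ, LinearIsometryEquiv.apply_symm_apply]
  refine ⟨φ, ?_, fun i j => by rw [hco, ha]⟩
  set b : ℤ → Lp ℂ 2 (@haarAddCircle 1 _) := fun n => a n • fourierLp 2 n with hb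
  have hs : HasSum b φ := by
    have := hasSum_fourier_series_L2 φ
    simpa only [hco] using this
  have s1 : Summable fun n : ℕ => b n := hs.summable.comp_injective Nat.cast_injective
  have s2 : Summable fun n : ℕ => b (-((n : ℤ) + 1)) :=
    hs.summable.comp_injective fun x y h => by simpa using h
  have s3 : (∑' n : ℕ, b n) + ∑' n : ℕ, b (-((n : ℤ) + 1)) = φ :=
    (s1.hasSum.add s2.hasSum).unique hs.nat_add_neg_add_one
  have t1 := (s1.hasSum.tendsto_sum_nat.comp (tendsto_add_atTop_nat 1)).cesaro_smul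
  have t2 := s2.hasSum.tendsto_sum_nat.cesaro_smul
  have t3 := t1.add t2
  rw [s3] at t3
  set G : ℕ → C(AddCircle (1 : ℝ), ℂ) := fun N =>
    ∑ j ∈ range N, ∑ i ∈ range N, a ((i : ℤ) - j) • fourier ((i : ℤ) - j) with hG
  have t4 : Tendsto (fun N : ℕ => ((N : ℝ)⁻¹) •
      (ContinuousMap.toLp (E := ℂ) 2 (@haarAddCircle 1 _) ℂ (G N))) atTop (𝓝 φ) := by
    refine t3.congr fun N => ?_
    rw [← smul_add, hG]
    congr 1
    simp only [map_sum, map_smul, Function.comp]
    rw [← sum_range_reflect (fun j => ∑ n ∈ range (j + 1), b n), ← sum_add_distrib]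
    exact sum_congr rfl fun j hj => (window_sum b (mem_range.mp hj)).symm
  obtain ⟨ns, -, hns⟩ := (tendstoInMeasure_of_tendsto_Lp t4).exists_seq_tendsto_ae
  have hbd : ∀ N : ℕ, ∀ᵐ t ∂(@haarAddCircle 1 _), ‖(((N : ℝ)⁻¹) •
      (ContinuousMap.toLp (E := ℂ) 2 (@haarAddCircle 1 _) ℂ (G N))) t‖ ≤ ‖C‖ := by
    intro N
    filter_upwards [Lp.coeFn_smul ((N : ℝ)⁻¹)
      (ContinuousMap.toLp (E := ℂ) 2 (@haarAddCircle 1 _) ℂ (G N)),
      ContinuousMap.coeFn_toLp (p := 2) (𝕜 := ℂ) (@haarAddCircle 1 _) (G N)] with t h1 h2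
    rw [h1, Pi.smul_apply, h2, norm_smul, Real.norm_of_nonneg (by positivity)]
    have h3 : ‖G N t‖ ≤ N * ‖C‖ := by
      have := fejer_bound C a ha N t
      simpa only [hG, ContinuousMap.coe_sum, Finset.sum_apply, ContinuousMap.smul_apply,
        smul_eq_mul] using this
    rcases Nat.eq_zero_or_pos N with rfl | hN
    · simp
    · rw [inv_mul_le_iff₀ (by exact_mod_cast hN)]
      exact h3
  refine memLp_top_of_bound (Lp.aestronglyMeasurable φ) ‖C‖ ?_
  filter_upwards [hns, ae_all_iff.mpr hbd] with t h1 h2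
  exact le_of_tendsto' h1.norm fun n => h2 (ns n)

end Pool.Agent.Lib.MP_db815c_an
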